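import Mathlib
import Pool.Agent.T2h17.FW.Grow
import Pool.Agent.T2h17.SM.Sc
import Pool.Agent.T2h17.SM.Cm
import Pool.Agent.T2h17.GH.All
import Pool.Agent.T2h17.GH.Ten
import Pool.Agent.T2h17.GH.Cnt
import Pool.Agent.T2h17.TV.Trd2
import Pool.Agent.T2h17.TV.Nrm

/-!
# Large Galois orbits of CM points near an arbitrary point of a variation of Hodge structures

Let `V` be a variation of (mixed) Hodge structures of rank `n` which comes from geometry, on a curve over a
number field, with ARBITRARY monodromy group and arbitrary Hodge numbers, and `x` a local coordinate at an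
arbitrary point `x₀` of the curve or of its completion. The period matrix is `H(x) x^N C`, where the entries of
`H` are linear combinations with algebraic coefficients of G-functions `h₁, …, h_r` with rational coefficients
(the components of the restriction of scalars from the function field of the curve to `ℚ(x)`), `N` is a
rational nilpotent matrix and `C` is the matrix of the periods of the fibre at `x₀` (`N = 0`), or of the
limit at `x₀`. The step `F^p` of the Hodge filtration is spanned by the rows of the period matrix of level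
`≥ p`. The points near `x₀` are given by their coordinate `x = 1 / ξ`.

The special points of `V` are its CM points. The codimension of a point is the dimension of `𝔤 / (𝔤 ∩ Stab)`,
where `𝔤` is the Lie algebra of the monodromy group and `Stab` is the space of the operators which preserve all
steps `F^p` which are defined over a number field of degree at most `(D + 2)^c₀`, where `D` is the degree of
the point, and all steps if the fibre has complex multiplication. For a CM point this is the dimension of the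
orbit of the Hodge flag under the complex monodromy group, the dimension of the period domain.

The André–Oort conjecture for Shimura varieties was proved with lower bounds for the Galois orbits of the CM
points, which grow like a power of the discriminant; for general variations such bounds are not known. We
prove that the points of degree `D` of codimension greater than `ν` do not come closer to `x₀` than
`2^(-(D + 2)^c)`, for all `D`, with a constant `c` which does not depend on `D`, for points of height `≤ |ξ|^D`, and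
for all roots of integral polynomials with bounded leading coefficient, for example for the points with
integral `ξ`; and the number of these points is at most `2^((D + 2)^c)`. Here `ν` is
(1) `τ` (`τ + 1` if `N ≠ 0`), where `τ` is the transcendence degree of the field of the RATIOS of the periods `C`;
(2) `⌊n / 2⌋` (`+ 1` if `N ≠ 0`), if `C` has complex multiplication and is polarised;
(3) uniformly in all rational structures `C` which are polarised by `S`, with rational `2 π i C⁻¹ N C`, the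
dimension, minus one, of the Lie algebra of the similitudes of `S` which normalise `N`.
In particular (2): if the orbits of the Hodge flags have dimension greater than `n / 2`, then the other CM points
near a CM point, and all points with algebraic Hodge flags, have large degree, for every monodromy group.

`AlgebraicFlagsWindows` contains the bound for the sum of the codimensions of all points of a window, for
points of bounded degree. `GrowingDegreeCM` and `GrowingDegreeSpecialLimits` contain the bounds in growing degree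
near points `x₀` with special limits for full monodromy `Sp` or `SO`, and families with rational coefficients.
-/

set_option autoImplicit false

open PowerSeries

namespace Pool.Agent.Results.MP_2794d1_ag.AlgebraicFlagsGrowingDegree

/-- an integer polynomial as a power series with rational coefficients -/
noncomputable def toQ (P : Polynomial ℤ) : PowerSeries ℚ :=
  ((P.map (Int.castRingHom ℚ) : Polynomial ℚ) : PowerSeries ℚ)

/-- the matrices `G_s` over `ℤ[x]` with `T^s y^(s) = G_s y` for all solutions `y` of `T y' = A y` -/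
noncomputable def iter {r : ℕ} (T : Polynomial ℤ) (A : Fin r → Fin r → Polynomial ℤ) :
    ℕ → Fin r → Fin r → Polynomial ℤ
  | 0 => fun i j => if i = j then 1 else 0
  | s + 1 => fun i j => T * Polynomial.derivative (iter T A s i j) + ∑ l, iter T A s i l * A l j -
      (s : Polynomial ℤ) * (Polynomial.derivative T * iter T A s i j)

/-- `h_1, ..., h_r` are G-functions with rational coefficients which solve the differential system
`T y' = A y`, with the conditions of Siegel and Galochkin. -/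
structure GFamily {r : ℕ} (T : Polynomial ℤ) (A : Fin r → Fin r → Polynomial ℤ)
    (h : Fin r → PowerSeries ℚ) : Prop where
  /-- the denominator is not zero -/
  T_ne : T ≠ 0
  /-- the differential equations -/
  ode : ∀ i, toQ T * PowerSeries.derivative ℚ (h i) = ∑ j, toQ (A i j) * h j
  /-- the coefficients have geometric growth -/
  size : ∃ C : ℝ, ∀ i m, |((coeff m (h i) : ℚ) : ℝ)| ≤ C ^ (m + 1)
  /-- the common denominators of the coefficients have geometric growth -/
  den : ∃ C : ℝ, ∀ m : ℕ, ∃ d : ℕ, 0 < d ∧ (d : ℝ) ≤ C ^ (m + 1) ∧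
    ∀ i, ∀ j ≤ m, ∃ a : ℤ, (d : ℚ) * coeff j (h i) = a
  /-- Galochkin's condition: the common denominators of the matrices `G_s / s!` have geometric growth -/
  galochkin : ∃ C : ℝ, ∀ m : ℕ, ∃ d : ℕ, 0 < d ∧ (d : ℝ) ≤ C ^ (m + 1) ∧ ∀ s ≤ m, ∀ i j,
    ∃ H : Polynomial ℤ, (d : Polynomial ℤ) * iter T A s i j = (s.factorial : Polynomial ℤ) * H

/-- rational matrices as complex matrices -/
def toC {α γ : Type} (M : Matrix α γ ℚ) : Matrix α γ ℂ := M.map fun x : ℚ => (x : ℂ)

/-- the values of the power series `h_1, ..., h_r` at `z` -/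
noncomputable def val {r : ℕ} (h : Fin r → PowerSeries ℚ) (z : ℂ) : Fin r → ℂ :=
  fun i => ∑' k : ℕ, ((coeff k (h i) : ℚ) : ℂ) * z ^ k

/-- the matrix with the entries `∑ β y`: linear combinations of `y_1, ..., y_r` -/
def comb {r n : ℕ} (β : Fin n × Fin n → Fin r → ℂ) (y : Fin r → ℂ) : Matrix (Fin n) (Fin n) ℂ :=
  Matrix.of fun i j => ∑ s, β (i, j) s * y s

/-- the exponential `exp (s X)` of a nilpotent matrix -/
noncomputable def expN {n : ℕ} (X : Matrix (Fin n) (Fin n) ℂ) (s : ℂ) : Matrix (Fin n) (Fin n) ℂ :=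
  ∑ a ∈ Finset.range n, (s ^ a / (a.factorial : ℂ)) • X ^ a

/-- The family: the matrix `H(x)` has the entries `∑ β h(x)` with algebraic `β`, it is invertible near
`x = 0`, `x ≠ 0`, and the period matrix of the variation is `H(x) x^N C`. The set `𝒩` consists of
directions of one-parameter groups of the monodromy group, every direction with its action `X.1` on the
solutions `h` and its action `X.2` on the cohomology: both are nilpotent, they are compatible with `β`, all
polynomial relations `R(x, h(x)) = 0` over `ℚ[x]` hold near `x = 0` also for the vectors `h(x) g`, where `g`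
is a product of matrices `exp (s X.1)`, `X ∈ 𝒩`, and the span of the `X.2` is normalised by the local
monodromy `exp (2 π i N)` (it is the Lie algebra of the subgroup of the monodromy group which fixes
`log x`). -/
structure Family {r n : ℕ} (β : Fin n × Fin n → Fin r → ℂ) (h : Fin r → PowerSeries ℚ)
    (N : Matrix (Fin n) (Fin n) ℚ)
    (𝒩 : Set (Matrix (Fin r) (Fin r) ℂ × Matrix (Fin n) (Fin n) ℂ)) : Prop where
  alg : ∀ a s, IsAlgebraic ℚ (β a s)
  det : ∃ ρ : ℝ, 0 < ρ ∧ ∀ z : ℂ, z ≠ 0 → ‖z‖ < ρ → (comb β (val h z)).det ≠ 0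
  nil : N ^ n = 0
  dir : ∀ X ∈ 𝒩, X.1 ^ r = 0 ∧ X.2 ^ n = 0
  equiv : ∀ X ∈ 𝒩, ∀ y : Fin r → ℂ, comb β (Matrix.vecMul y X.1) = comb β y * X.2
  normal : ∀ X ∈ 𝒩, ∀ s : ℂ, expN (toC N) s * X.2 * expN (toC N) (-s) ∈
    Submodule.span ℂ (Prod.snd '' 𝒩)
  inv : ∃ ρ : ℝ, 0 < ρ ∧ ∀ R : MvPolynomial (Fin r) (Polynomial ℚ), MvPolynomial.aeval h R = 0 →
    ∀ z : ℂ, ‖z‖ < ρ → ∀ g ∈ Submonoid.closure {g | ∃ X ∈ 𝒩, ∃ s : ℂ, g = expN X.1 s},
      MvPolynomial.eval₂ (Polynomial.aeval z : Polynomial ℚ →ₐ[ℚ] ℂ).toRingHom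
        (Matrix.vecMul (val h z) g) R = 0

/-- The period matrix `H(x) x^N C = H(x) exp (N log x) C` at `x = 1 / ξ`, with the value `-l` of `log x`,
where `exp l = ξ`; the rows belong to a basis of de Rham cohomology, the columns to a rational basis. -/
noncomputable def per {r n : ℕ} (β : Fin n × Fin n → Fin r → ℂ) (h : Fin r → PowerSeries ℚ)
    (N : Matrix (Fin n) (Fin n) ℚ) (C : Matrix (Fin n) (Fin n) ℂ) (ξ l : ℂ) :
    Matrix (Fin n) (Fin n) ℂ := comb β (val h (1 / ξ)) * expN (toC N) (-l) * C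

/-- The step `F^p` of the Hodge filtration in the rational coordinates: the span of the rows of level at least
`p` of the period matrix `B`. -/
def F {n : ℕ} (lev : Fin n → ℤ) (B : Matrix (Fin n) (Fin n) ℂ) (p : ℤ) : Submodule ℂ (Fin n → ℂ) :=
  Submodule.span ℂ {v | ∃ i : Fin n, p ≤ lev i ∧ v = B i}

/-- a subspace spanned by vectors with coordinates in `K` -/
def DefinedOver {n : ℕ} (K : IntermediateField ℚ ℂ) (W : Submodule ℂ (Fin n → ℂ)) : Prop :=
  ∃ s : Set (Fin n → K), W = Submodule.span ℂ ((fun x i => ((x i : K) : ℂ)) '' s)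

/-- Complex multiplication: there is a rational endomorphism with separable characteristic polynomial
which preserves the filtration, that is, the algebra of endomorphisms of the Hodge structure contains a
commutative semisimple algebra of the maximal dimension. -/
def HasCM {n : ℕ} (F : ℤ → Submodule ℂ (Fin n → ℂ)) : Prop :=
  ∃ a : Matrix (Fin n) (Fin n) ℚ, a.charpoly.Separable ∧
    ∀ p, ∀ v ∈ F p, Matrix.vecMul v (toC a) ∈ F p

/-- The step `F^p` is algebraic: the fibre has complex multiplication, or `F^p` is defined over a number field of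
degree at most `D`. -/
def AlgebraicStep {n : ℕ} (D : ℕ) (lev : Fin n → ℤ) (B : Matrix (Fin n) (Fin n) ℂ) (p : ℤ) : Prop :=
  HasCM (F lev B) ∨ ∃ K : IntermediateField ℚ ℂ, FiniteDimensional ℚ K ∧ Module.finrank ℚ K ≤ D ∧
    DefinedOver K (F lev B p)

/-- the operators which preserve all algebraic steps of the Hodge filtration -/
def Stab {n : ℕ} (D : ℕ) (lev : Fin n → ℤ) (B : Matrix (Fin n) (Fin n) ℂ) :
    Submodule ℂ (Matrix (Fin n) (Fin n) ℂ) where
  carrier := {X | ∀ p, AlgebraicStep D lev B p → ∀ v ∈ F lev B p, Matrix.vecMul v X ∈ F lev B p}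
  add_mem' := fun hX hY p hA v hv => by
    rw [Matrix.vecMul_add]
    exact Submodule.add_mem _ (hX p hA v hv) (hY p hA v hv)
  zero_mem' := fun p _ v _ => by
    rw [Matrix.vecMul_zero]
    exact Submodule.zero_mem _
  smul_mem' := fun c X hX p hA v hv => by
    rw [Matrix.vecMul_smul]
    exact Submodule.smul_mem _ c (hX p hA v hv)

/-- the conjugation `Y ↦ C⁻¹ Y C` from the flat coordinates to the rational coordinates -/
noncomputable def conjBy {n : ℕ} (C : Matrix (Fin n) (Fin n) ℂ) :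
    Matrix (Fin n) (Fin n) ℂ →ₗ[ℂ] Matrix (Fin n) (Fin n) ℂ where
  toFun := fun Y => C⁻¹ * Y * C
  map_add' := fun Y Y' => by rw [Matrix.mul_add, Matrix.add_mul]
  map_smul' := fun c Y => by
    rw [Matrix.mul_smul, Matrix.smul_mul]
    rfl

/-- the Lie algebra of the monodromy group in the flat coordinates: the span of `N` and of the directions
in `𝒩` -/
def mon {r n : ℕ} (N : Matrix (Fin n) (Fin n) ℚ)
    (𝒩 : Set (Matrix (Fin r) (Fin r) ℂ × Matrix (Fin n) (Fin n) ℂ)) :
    Submodule ℂ (Matrix (Fin n) (Fin n) ℂ) := Submodule.span ℂ (Prod.snd '' 𝒩 ∪ {toC N})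

/-- The codimension of the point `x = 1 / ξ` with the logarithm `l` of `ξ`: the dimension of `𝔤 / (𝔤 ∩ Stab)`, where `𝔤`
is the Lie algebra of the monodromy group in the rational coordinates. For a CM point, and for a point all
steps of whose Hodge filtration are defined over number fields of degree at most `D`, this is the dimension
of the orbit of the Hodge flag under the complex monodromy group. -/
noncomputable def codim {n r : ℕ} (D : ℕ) (lev : Fin n → ℤ) (β : Fin n × Fin n → Fin r → ℂ)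
    (h : Fin r → PowerSeries ℚ) (N : Matrix (Fin n) (Fin n) ℚ)
    (𝒩 : Set (Matrix (Fin r) (Fin r) ℂ × Matrix (Fin n) (Fin n) ℂ)) (C : Matrix (Fin n) (Fin n) ℂ) (ξ l : ℂ) : ℕ :=
  Module.finrank ℂ ((mon N 𝒩).map (conjBy C)) -
    Module.finrank ℂ ((mon N 𝒩).map (conjBy C) ⊓ Stab D lev (per β h N C ξ l) : Submodule ℂ _)

/-- The fibre with the period matrix `C` has complex multiplication, algebraically: there is a rational
endomorphism `M` with `n` different eigenvalues which is algebraic in the coordinates of de Rham cohomology (for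
abelian motives all rational Hodge endomorphisms are algebraic in this sense, by Deligne). -/
def ComplexMultiplication {n : ℕ} (C : Matrix (Fin n) (Fin n) ℂ) : Prop :=
  ∃ (M : Matrix (Fin n) (Fin n) ℚ) (A : Matrix (Fin n) (Fin n) ℂ), M.charpoly.Separable ∧
    (∀ i j, IsAlgebraic ℚ (A i j)) ∧ C * toC M = A * C

/-- the form with the matrix `S` in the flat coordinates is proportional to a rational form -/
def Polarised {n : ℕ} (S : Matrix (Fin n) (Fin n) ℚ) (C : Matrix (Fin n) (Fin n) ℂ) : Prop :=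
  ∃ (P : Matrix (Fin n) (Fin n) ℚ) (κ : ℂ), κ ≠ 0 ∧ C * toC P * C.transpose = κ • toC S

/-- the Lie algebra of the infinitesimal similitudes of the form `S` which normalise the line of `N` -/
def Similitudes {n : ℕ} (N S : Matrix (Fin n) (Fin n) ℂ) : Submodule ℂ (Matrix (Fin n) (Fin n) ℂ) where
  carrier := {Z | (∃ μ : ℂ, Z * N - N * Z = μ • N) ∧ ∃ η : ℂ, Z * S + S * Z.transpose = η • S}
  add_mem' := fun hZ hZ' => (Pool.Agent.T2h17.TV.Nrm N S).add_mem hZ hZ'
  zero_mem' := (Pool.Agent.T2h17.TV.Nrm N S).zero_mem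
  smul_mem' := fun c _ hZ => (Pool.Agent.T2h17.TV.Nrm N S).smul_mem c hZ

/-- The base change `C` from the flat basis to a rational basis is a polarised rational structure: the
logarithm `2 π i C⁻¹ N C` of the local monodromy is rational and the form with the matrix `S` in the flat
basis is proportional to a rational form. -/
structure RationalStructure {n : ℕ} (S N : Matrix (Fin n) (Fin n) ℚ) (C : Matrix (Fin n) (Fin n) ℂ) :
    Prop where
  det : C.det ≠ 0
  log : ∃ M : Matrix (Fin n) (Fin n) ℚ, C * toC M = (2 * (Real.pi : ℂ) * Complex.I) • (toC N * C)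
  form : ∃ (P : Matrix (Fin n) (Fin n) ℚ) (κ : ℂ), κ ≠ 0 ∧ C * toC P * C.transpose = κ • toC S

/-- the transcendence degree of the field which is generated by the entries of `C` is at most `τ` -/
def TrdegLe {n : ℕ} (C : Matrix (Fin n) (Fin n) ℂ) (τ : ℕ) : Prop :=
  Algebra.trdeg ℚ (IntermediateField.adjoin ℚ (Set.range fun a : Fin n × Fin n => C a.1 a.2)) ≤ τ

/-- `ξ` is a root of a nonzero integral polynomial of degree at most `g` with coefficients of size at
most `|ξ|^A` -/
def Height (g A : ℕ) (ξ : ℂ) : Prop :=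
  ∃ p : Polynomial ℤ, p ≠ 0 ∧ p.natDegree ≤ g ∧ (∀ j, |(p.coeff j : ℝ)| ≤ ‖ξ‖ ^ A) ∧
    Polynomial.aeval ξ p = 0

/-- The set of the roots of nonzero integral polynomials of degree `≤ D` with leading coefficient of
absolute value `≤ 2^D` all of whose roots `ξ'` with `|ξ'| > R` are in `Sp`. It contains the algebraic
integers of degree `≤ D` all of whose conjugates of absolute value greater than `R` are in `Sp`. -/
def Roots (Sp : Set ℂ) (R : ℝ) (D : ℕ) : Set ℂ :=
  {ξ : ℂ | ∃ p : Polynomial ℤ, p ≠ 0 ∧ p.natDegree ≤ D ∧ |p.leadingCoeff| ≤ 2 ^ D ∧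
    Polynomial.aeval ξ p = 0 ∧ ∀ ξ' : ℂ, Polynomial.aeval ξ' p = 0 → R < ‖ξ'‖ → ξ' ∈ Sp}

/-- Polynomial height bound for the sets `Sp D`: for every `R` there is a `c` such that for all `D`
(1) the elements `ξ` of `Sp D` of degree `≤ D` and height `≤ |ξ|^D` satisfy `|ξ| < 2^((D+2)^c)`, and there
are at most `2^((D+2)^c)` such elements;
(2) the set `Roots (Sp D) R D` has at most `2^((D+2)^c)` elements, of absolute value less than
`2^((D+2)^c)`; it contains all algebraic integers `ξ` of degree `≤ D` all of whose conjugates of absolute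
value greater than `R` are in `Sp D`. -/
def HeightBound (Sp : ℕ → Set ℂ) : Prop := ∀ R : ℝ, ∃ c : ℕ, ∀ D : ℕ,
  (∀ ξ ∈ Sp D, Height D D ξ → ‖ξ‖ < 2 ^ ((D + 2) ^ c)) ∧
  {ξ : ℂ | ξ ∈ Sp D ∧ Height D D ξ}.Finite ∧
  {ξ : ℂ | ξ ∈ Sp D ∧ Height D D ξ}.ncard ≤ 2 ^ ((D + 2) ^ c) ∧
  (∀ ξ ∈ Roots (Sp D) R D, ‖ξ‖ < 2 ^ ((D + 2) ^ c)) ∧ (Roots (Sp D) R D).Finite ∧
  (Roots (Sp D) R D).ncard ≤ 2 ^ ((D + 2) ^ c) ∧
  ∀ ξ : ℂ, IsIntegral ℤ ξ → (minpoly ℚ ξ).natDegree ≤ D →
    (∀ ξ' : ℂ, Polynomial.aeval ξ' (minpoly ℚ ξ) = 0 → R < ‖ξ'‖ → ξ' ∈ Sp D) → ξ ∈ Roots (Sp D) R D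

/-- counting -/
theorem height_bound {Sp : ℕ → Set ℂ} (hmono : ∀ D D' : ℕ, D ≤ D' → Sp D ⊆ Sp D')
    (h : ∃ t₀ : ℕ, ∀ (D : ℕ) (ξ : ℂ), (2 : ℝ) ^ ((D + 2) ^ t₀) ≤ ‖ξ‖ → Height D D ξ → ξ ∉ Sp D) :
    HeightBound Sp := fun R => Pool.Agent.T2h17.GH.cntf hmono h R

theorem iter_eq {r : ℕ} (T : Polynomial ℤ) (A : Fin r → Fin r → Polynomial ℤ) (s : ℕ) :
    iter T A s = Pool.Agent.Y120.GH.itm T A s := by
  induction s with
  | zero => rfl
  | succ s ih =>
    funext i j
    rw [iter, Pool.Agent.Y120.GH.itm, ih]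

/-- the G-system -/
theorem gsys {r : ℕ} {T : Polynomial ℤ} {A : Fin r → Fin r → Polynomial ℤ}
    {h : Fin r → PowerSeries ℚ} (hG : GFamily T A h) : ∃ (q : ℕ) (C : ℝ),
    Pool.Agent.Y113.GSys q C T (fun i : Option (Fin r) => i.elim (1 : PowerSeries ℚ) h) :=
  Pool.Agent.T2h17.GH.gsys_one hG.ode hG.size hG.den (by
    obtain ⟨C, hC⟩ := hG.galochkin
    refine ⟨C, fun m => ?_⟩
    obtain ⟨d, h1, h2, h3⟩ := hC m
    refine ⟨d, h1, h2, fun s hs i' j' => ?_⟩
    rw [← iter_eq]
    exact h3 s hs i' j')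

/-- the bound for a fixed rational structure -/
theorem finrank_fixed {n : ℕ} {C : Matrix (Fin n) (Fin n) ℂ} (hC : C.det ≠ 0) {τ : ℕ}
    (hτ : TrdegLe C τ) (N : Matrix (Fin n) (Fin n) ℚ) : ∃ d : ℕ,
    Module.finrank ℂ (Pool.Agent.T2h17.TV.Tg d C ⊔ Submodule.span ℂ {toC N} : Submodule ℂ _) ≤
      τ + if N = 0 then 0 else 1 := by
  obtain ⟨d, hd⟩ := Pool.Agent.T2h17.TV.finrank_Tg hC
  refine ⟨d, ?_⟩
  have h1 : Module.finrank ℂ (Pool.Agent.T2h17.TV.Tg d C) ≤ τ := by
    exact_mod_cast hd.trans hτ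
  split_ifs with hN
  · subst hN
    have h2 : toC (0 : Matrix (Fin n) (Fin n) ℚ) = 0 := by
      ext i j
      simp [toC]
    rw [h2, Submodule.span_zero_singleton, sup_bot_eq]
    exact h1
  · refine (Submodule.finrank_add_le_finrank_add_finrank _ _).trans (Nat.add_le_add h1 ?_)
    refine (finrank_span_le_card _).trans ?_
    simp

/-- the similitudes -/
theorem le_sim {n : ℕ} {S N : Matrix (Fin n) (Fin n) ℚ} {C : Matrix (Fin n) (Fin n) ℂ}
    (hN : toC N * toC S + toC S * (toC N).transpose = 0) (hC : RationalStructure S N C) :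
    Pool.Agent.T2h17.TV.Tg 2 C ⊔ Submodule.span ℂ {toC N} ≤ Similitudes (toC N) (toC S) := by
  obtain ⟨hdet, ⟨M, hM⟩, P, κ, hκ, hP⟩ := hC
  refine sup_le ?_ ?_
  · intro Z hZ
    exact Pool.Agent.T2h17.TV.Tg_le_Nrm hdet Complex.two_pi_I_ne_zero hM hκ hP hZ
  · rw [Submodule.span_le, Set.singleton_subset_iff]
    exact ⟨⟨0, by rw [sub_self, zero_smul]⟩, 0, by rw [hN, zero_smul]⟩

theorem one_sim {n : ℕ} (N S : Matrix (Fin n) (Fin n) ℂ) :
    (1 : Matrix (Fin n) (Fin n) ℂ) ∈ Similitudes N S := by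
  refine ⟨⟨0, by rw [Matrix.one_mul, Matrix.mul_one, sub_self, zero_smul]⟩, 2, ?_⟩
  rw [Matrix.one_mul, Matrix.transpose_one, Matrix.mul_one, two_smul]

/-- the transversality theorem -/
theorem points {n r : ℕ} {T : Polynomial ℤ} {A : Fin r → Fin r → Polynomial ℤ}
    {h : Fin r → PowerSeries ℚ} (hG : GFamily T A h) {β : Fin n × Fin n → Fin r → ℂ}
    {N : Matrix (Fin n) (Fin n) ℚ}
    {𝒩 : Set (Matrix (Fin r) (Fin r) ℂ × Matrix (Fin n) (Fin n) ℂ)} (hM : Family β h N 𝒩)
    (d c₀ : ℕ) (𝒮 : Set (Finset (Fin n))) : ∃ t₀ : ℕ, ∀ (D : ℕ) (ξ : ℂ), (2 : ℝ) ^ ((D + 2) ^ t₀) ≤ ‖ξ‖ → Height D D ξ →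
      ∀ (C : Matrix (Fin n) (Fin n) ℂ) (l : ℂ), C.det ≠ 0 → (comb β (val h (1 / ξ))).det ≠ 0 ∧
      Pool.Agent.T2h17.FW.TransF (k := 1) β N 𝒩 d ((D + 2) ^ c₀) 𝒮 C (fun _ => val h (1 / ξ)) l
        (fun _ => 0) := by
  obtain ⟨ρ₁, hρ₁, hinv⟩ := hM.inv
  obtain ⟨ρ₂, hρ₂, hdet⟩ := hM.det
  set ρ' : ℝ := min ρ₁ ρ₂ with hρ'
  have hρ'0 : 0 < ρ' := lt_min hρ₁ hρ₂
  have hρ'2 : ρ' ≤ ρ₁ := min_le_left _ _
  have hρ'3 : ρ' ≤ ρ₂ := min_le_right _ _
  have hcl : Submonoid.closure {g | ∃ X ∈ 𝒩, ∃ s : ℂ, g = expN X.1 s} =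
      Pool.Agent.T2h17.HW.Grp (Prod.fst '' 𝒩) := by
    unfold Pool.Agent.T2h17.HW.Grp
    congr 1
    ext g
    constructor
    · rintro ⟨X, hX, s, rfl⟩
      exact ⟨X.1, ⟨X, hX, rfl⟩, s, rfl⟩
    · rintro ⟨_, ⟨X, hX, rfl⟩, s, rfl⟩
      exact ⟨X, hX, s, rfl⟩
  have hinv' : Pool.Agent.T2h17.AH.InvV h (Prod.fst '' 𝒩) ρ' := fun R hR z hz g hg =>
    hinv R hR z (hz.trans_le hρ'2) g (by rw [hcl]; exact hg)
  obtain ⟨q, Cg, hgs⟩ := gsys hG
  exact Pool.Agent.T2h17.FW.trans4F Pool.Agent.T2h17.GH.t_low Pool.Agent.T2h17.GH.t_grow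
    Pool.Agent.T2h17.GH.t_depf hG.T_ne hgs hM.alg hM.nil (fun X hX => (hM.dir X hX).1) hM.equiv
    (by
      rintro _ ⟨X, hX, rfl⟩ s
      exact hM.normal X hX s) hρ'0 hinv' (fun z hz hz' => hdet z hz (hz'.trans_le hρ'3)) d c₀ 𝒮

/-- the steps of the Hodge filtration as spans of rows -/
theorem F_eq {n : ℕ} (lev : Fin n → ℤ) (B : Matrix (Fin n) (Fin n) ℂ) (p : ℤ) :
    F lev B p = Pool.Agent.T2h17.FW.Rows (Finset.univ.filter fun i => p ≤ lev i) B := by
  unfold F Pool.Agent.T2h17.FW.Rows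
  congr 1
  ext v
  constructor
  · rintro ⟨i, hi, rfl⟩
    exact ⟨i, by rw [Finset.mem_coe, Finset.mem_filter]; exact ⟨Finset.mem_univ _, hi⟩, rfl⟩
  · rintro ⟨i, hi, rfl⟩
    rw [Finset.mem_coe, Finset.mem_filter] at hi
    exact ⟨i, hi.2, rfl⟩

/-- the sets of rows of the steps of the Hodge filtration -/
def rowSets {n : ℕ} (lev : Fin n → ℤ) : Set (Finset (Fin n)) :=
  {s | ∃ p : ℤ, s = Finset.univ.filter fun i => p ≤ lev i}

/-- comparison of the stabilisers -/
theorem stab_le {n D D0 : ℕ} (hD : D ≤ D0) (hn : n ^ n ≤ D0) (lev : Fin n → ℤ) (B : Matrix (Fin n) (Fin n) ℂ) :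
    Pool.Agent.T2h17.FW.StabF D0 (rowSets lev) B ≤ Stab D lev B := by
  intro X hX p hp v hv
  rw [F_eq] at hv ⊢
  refine hX _ ⟨p, rfl⟩ ?_ v hv
  rw [← F_eq]
  rcases hp with ⟨a, ha, h1⟩ | ⟨K, hK, hKD, s, hs⟩
  · exact (Pool.Agent.T2h17.FW.algF_cm a ha (h1 p)).mono hn
  · exact (Pool.Agent.T2h17.FW.algF_of hK hKD hs).mono hD

/-- the bound for a fixed rational structure -/
theorem fixed {n : ℕ} {C : Matrix (Fin n) (Fin n) ℂ} (hC : C.det ≠ 0) {τ : ℕ}
    (hτ : ∃ x : ℂ, x ≠ 0 ∧ TrdegLe (x • C) τ) (N : Matrix (Fin n) (Fin n) ℚ) :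
    ∃ (x : ℂ) (d : ℕ), x ≠ 0 ∧
      (1 : Matrix (Fin n) (Fin n) ℂ) ∈ (Pool.Agent.T2h17.TV.Tg d (x • C) ⊔ Submodule.span ℂ {toC N} : Submodule ℂ _) ∧
      Module.finrank ℂ (Pool.Agent.T2h17.TV.Tg d (x • C) ⊔ Submodule.span ℂ {toC N} : Submodule ℂ _) ≤
        (τ + if N = 0 then 0 else 1) + 1 := by
  obtain ⟨x, hx, hdet, h1, h2⟩ := Pool.Agent.T2h17.SM.scale2 hC hτ
  obtain ⟨d, hd⟩ := finrank_fixed hdet h1 N
  exact ⟨x, d, hx, Submodule.mem_sup_left (h2 d), by omega⟩

/-- comparison of the codimensions -/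
theorem codim_mono {n r D D' : ℕ} (hD : D ≤ D') (lev : Fin n → ℤ) (β : Fin n × Fin n → Fin r → ℂ)
    (h : Fin r → PowerSeries ℚ) (N : Matrix (Fin n) (Fin n) ℚ)
    (𝒩 : Set (Matrix (Fin r) (Fin r) ℂ × Matrix (Fin n) (Fin n) ℂ)) (C : Matrix (Fin n) (Fin n) ℂ) (ξ l : ℂ) :
    codim D lev β h N 𝒩 C ξ l ≤ codim D' lev β h N 𝒩 C ξ l := by
  have h1 : Stab D' lev (per β h N C ξ l) ≤ Stab D lev (per β h N C ξ l) := by
    intro X hX p hp v hv
    refine hX p ?_ v hv
    rcases hp with hp | ⟨K, hK, hKD, h2⟩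
    · exact Or.inl hp
    · exact Or.inr ⟨K, hK, hKD.trans hD, h2⟩
  unfold codim
  exact Nat.sub_le_sub_left (Submodule.finrank_mono (inf_le_inf_left _ h1)) _

/-- the bound at single points -/
theorem core {n r : ℕ} {T : Polynomial ℤ} {A : Fin r → Fin r → Polynomial ℤ}
    {h : Fin r → PowerSeries ℚ} (hG : GFamily T A h) {β : Fin n × Fin n → Fin r → ℂ}
    {N : Matrix (Fin n) (Fin n) ℚ}
    {𝒩 : Set (Matrix (Fin r) (Fin r) ℂ × Matrix (Fin n) (Fin n) ℂ)} (hM : Family β h N 𝒩) (hn : 1 ≤ n)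
    (lev : Fin n → ℤ) (c₀ d ν : ℕ) :
    ∃ t₀ : ℕ, ∀ (D : ℕ) (ξ : ℂ), (2 : ℝ) ^ ((D + 2) ^ t₀) ≤ ‖ξ‖ → Height D D ξ →
      ∀ (C : Matrix (Fin n) (Fin n) ℂ) (l : ℂ), C.det ≠ 0 → ∀ x : ℂ, x ≠ 0 →
      ∀ T' : Submodule ℂ (Matrix (Fin n) (Fin n) ℂ),
      Pool.Agent.T2h17.TV.Tg d (x • C) ⊔ Submodule.span ℂ {toC N} ≤ T' →
      (1 : Matrix (Fin n) (Fin n) ℂ) ∈ T' → Module.finrank ℂ T' ≤ ν + 1 →
      codim ((D + 2) ^ c₀) lev β h N 𝒩 C ξ l ≤ ν := by
  obtain ⟨t₀, ht₀⟩ := points hG hM d (c₀ + n ^ n) (rowSets lev)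
  refine ⟨t₀, fun D ξ hξ hht C l hC x hx T' hT' h1T hfr => ?_⟩
  have hC' : (x • C).det ≠ 0 := by
    rw [Matrix.det_smul]
    exact mul_ne_zero (pow_ne_zero _ hx) hC
  obtain ⟨-, h1⟩ := ht₀ D ξ hξ hht (x • C) l hC'
  have h0 := Pool.Agent.T2h17.FW.totalF h1 hT' hC' hn ⟨h1T, hfr⟩
  rw [Fin.sum_univ_one, add_zero] at h0
  refine le_trans ?_ h0
  have h2 : (mon N 𝒩).map (conjBy C) = (mon N 𝒩).map (Pool.Agent.T2h17.TV.cj (x • C)) := by
    rw [Pool.Agent.T2h17.FW.cj_smul hC hx]
    rfl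
  have h3 : Pool.Agent.T2h17.FW.StabF ((D + 2) ^ (c₀ + n ^ n)) (rowSets lev)
      (Pool.Agent.T2h17.AH.bt β (val h (1 / ξ)) *
        Pool.Agent.T2h17.HW.En (Pool.Agent.T2h17.HW.tc N) (-l) * (x • C)) ≤
      Stab ((D + 2) ^ c₀) lev (per β h N C ξ l) := by
    rw [Matrix.mul_smul, Pool.Agent.T2h17.FW.StabF_smul hx]
    refine stab_le (Nat.pow_le_pow_right (by omega) (Nat.le_add_right _ _)) ?_ lev _
    calc n ^ n ≤ 2 ^ (n ^ n) := Nat.lt_two_pow_self.le
      _ ≤ (D + 2) ^ (n ^ n) := Nat.pow_le_pow_left (by omega) _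
      _ ≤ (D + 2) ^ (c₀ + n ^ n) := Nat.pow_le_pow_right (by omega) (Nat.le_add_left _ _)
  unfold codim
  rw [h2]
  exact Nat.sub_le_sub_left (Submodule.finrank_mono (inf_le_inf_left _ h3)) _

/-- Let `h_1, …, h_r` be G-functions with rational coefficients, `H = ∑ β h` with algebraic `β`, `N` the logarithm of
the local monodromy, `n ≥ 1`, let `lev` be the levels of the rows for the Hodge filtration, and let `c₀` be an
exponent; all number fields have degree at most `(D + 2)^c₀`.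
(1) For a fixed `C` some multiple of which has transcendence degree at most `τ` the sets of the `ξ` such that the
fibre at `1 / ξ`, for some logarithm, has codimension greater than `τ` (`τ + 1` if `N ≠ 0`) have a polynomial
height bound.
(2) For a fixed polarised `C` with complex multiplication the sets of the `ξ` such that the fibre at `1 / ξ`, for
some logarithm, has codimension greater than `⌊n / 2⌋` (`⌊n / 2⌋ + 1` if `N ≠ 0`) have a polynomial height bound.
(3) The sets of the `ξ` such that the fibre at `1 / ξ` has at least the dimension of the Lie algebra of the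
similitudes of `S` which normalise `N` as its codimension, for some logarithm and some rational structure `C`
polarised by `S` (which may depend on `ξ`), have a polynomial height bound. -/
theorem result {n r : ℕ} (hn : 1 ≤ n) (T : Polynomial ℤ) (A : Fin r → Fin r → Polynomial ℤ)
    (h : Fin r → PowerSeries ℚ) (hG : GFamily T A h) (β : Fin n × Fin n → Fin r → ℂ)
    (N : Matrix (Fin n) (Fin n) ℚ)
    (𝒩 : Set (Matrix (Fin r) (Fin r) ℂ × Matrix (Fin n) (Fin n) ℂ)) (hM : Family β h N 𝒩)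
    (lev : Fin n → ℤ) (c₀ : ℕ) :
    (∀ (C : Matrix (Fin n) (Fin n) ℂ) (τ : ℕ), C.det ≠ 0 → (∃ x : ℂ, x ≠ 0 ∧ TrdegLe (x • C) τ) →
      HeightBound fun D => {ξ : ℂ | ∃ l : ℂ, Complex.exp l = ξ ∧
        (τ + if N = 0 then 0 else 1) < codim ((D + 2) ^ c₀) lev β h N 𝒩 C ξ l}) ∧
    (∀ (C : Matrix (Fin n) (Fin n) ℂ) (S : Matrix (Fin n) (Fin n) ℚ), C.det ≠ 0 → S.det ≠ 0 →
      Polarised S C → ComplexMultiplication C →
      HeightBound fun D => {ξ : ℂ | ∃ l : ℂ, Complex.exp l = ξ ∧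
        (n / 2 + if N = 0 then 0 else 1) < codim ((D + 2) ^ c₀) lev β h N 𝒩 C ξ l}) ∧
    (∀ S : Matrix (Fin n) (Fin n) ℚ, toC N * toC S + toC S * (toC N).transpose = 0 →
      HeightBound fun D => {ξ : ℂ | ∃ l : ℂ, Complex.exp l = ξ ∧
        ∃ C : Matrix (Fin n) (Fin n) ℂ, RationalStructure S N C ∧
        Module.finrank ℂ (Similitudes (toC N) (toC S)) ≤ codim ((D + 2) ^ c₀) lev β h N 𝒩 C ξ l}) := by
  have hle : ∀ D D' : ℕ, D ≤ D' → (D + 2) ^ c₀ ≤ (D' + 2) ^ c₀ := fun D D' hD =>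
    Nat.pow_le_pow_left (by omega) _
  have hfix : ∀ (C : Matrix (Fin n) (Fin n) ℂ) (τ : ℕ), C.det ≠ 0 → (∃ x : ℂ, x ≠ 0 ∧ TrdegLe (x • C) τ) →
      HeightBound fun D => {ξ : ℂ | ∃ l : ℂ, Complex.exp l = ξ ∧
        (τ + if N = 0 then 0 else 1) < codim ((D + 2) ^ c₀) lev β h N 𝒩 C ξ l} := by
    intro C τ hC hτ
    refine height_bound ?_ ?_
    · rintro D D' hD ξ ⟨l, h1, h2⟩
      exact ⟨l, h1, h2.trans_le (codim_mono (hle D D' hD) _ _ _ _ _ _ _ _)⟩
    · obtain ⟨x, d, hx, h1, h2⟩ := fixed hC hτ N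
      obtain ⟨t₀, ht₀⟩ := core hG hM hn lev c₀ d (τ + if N = 0 then 0 else 1)
      refine ⟨t₀, ?_⟩
      rintro D ξ hξ hht ⟨l, -, hl⟩
      exact absurd (ht₀ D ξ hξ hht C l hC x hx _ le_rfl h1 h2) (not_le.2 hl)
  refine ⟨hfix, ?_, fun S hSN => height_bound ?_ ?_⟩
  · rintro C S hC hS ⟨P, κ, hκ, hP⟩ ⟨M, B, hM', hB, hCM⟩
    exact hfix C (n / 2) hC (Pool.Agent.T2h17.SM.cmt2 hS hC hκ hP hB hCM hM')
  · rintro D D' hD ξ ⟨l, h1, C, hC, h2⟩
    exact ⟨l, h1, C, hC, h2.trans (codim_mono (hle D D' hD) _ _ _ _ _ _ _ _)⟩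
  · obtain ⟨t₀, ht₀⟩ := core hG hM hn lev c₀ 2 (Module.finrank ℂ (Similitudes (toC N) (toC S)) - 1)
    refine ⟨t₀, ?_⟩
    rintro D ξ hξ hht ⟨l, -, C, hC, hl⟩
    have hpos : 0 < Module.finrank ℂ (Similitudes (toC N) (toC S)) := by
      have : NeZero n := ⟨by omega⟩
      have h6 : Nontrivial (Similitudes (toC N) (toC S)) :=
        ⟨⟨⟨1, one_sim _ _⟩, 0, fun h7 => one_ne_zero (congrArg Subtype.val h7)⟩⟩
      exact Module.finrank_pos
    have h1 := ht₀ D ξ hξ hht C l hC.det 1 one_ne_zero (Similitudes (toC N) (toC S))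
      (by rw [one_smul]; exact le_sim hSN hC) (one_sim _ _) (by omega)
    omega

end Pool.Agent.Results.MP_2794d1_ag.AlgebraicFlagsGrowingDegree
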