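import Mathlib
import Pool.Agent.T2h17.FW.Grow
import Pool.Agent.T2h17.SM.Sc
import Pool.Agent.T2h17.SM.Cm
import Pool.Agent.T2h17.AH.Eng
import Pool.Agent.T2h17.TV.Trd2
import Pool.Agent.T2h17.TV.Nrm

/-!
# CM points and algebraic Hodge flags in the windows near an arbitrary point of a variation of Hodge structures

Let `V` be a variation of (mixed) Hodge structures of rank `n` which comes from geometry, on a curve over a
number field, with ARBITRARY monodromy group and arbitrary Hodge numbers, and `x` a local coordinate at an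
arbitrary point `x₀` of the curve or of its completion. The period matrix is `H(x) x^N C`, where the entries of
`H` are linear combinations with algebraic coefficients of G-functions `h₁, …, h_r` with rational coefficients
(the components of the restriction of scalars from the function field of the curve to `ℚ(x)`), `N` is a
rational nilpotent matrix and `C` is the matrix of the periods of the fibre at `x₀` (`N = 0`), or of the
limit at `x₀`. The step `F^p` of the Hodge filtration is spanned by the rows of the period matrix of level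
`≥ p`. The points near `x₀` are given by their coordinate `x = 1 / ξ`.

The special points of `V` are its CM points. By theorems of Cohen, Shiga and Wolfart for abelian varieties, and
by conjecture in general, they are the algebraic points of the curve at which all steps of the Hodge
filtration are algebraic in the rational coordinates. We consider all points at which some steps are
algebraic: let `𝔤` be the Lie algebra of the monodromy group, in the rational coordinates of the fibre at `x`,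
and `Stab` the space of the operators which preserve all steps `F^p` which are defined over a number field of
degree at most `D`, and all steps if the fibre has complex multiplication (a rational endomorphism with
separable characteristic polynomial preserves all `F^p`). The codimension of the point is the dimension of
`𝔤 / (𝔤 ∩ Stab)`: for a CM point this is the dimension of the orbit of the Hodge flag under the complex
monodromy group, the dimension of the period domain.

We prove that in each window `x = 1 / (ξ - G u)`, `1 ≤ u ≤ W`, where `ξ` is algebraic of bounded degree, of height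
bounded by a power of `|ξ|`, and `|ξ| ≥ (W + 2)^E`, the SUM OF THE CODIMENSIONS OF ALL POINTS of the window is at
most `ν`, where `ν` is
(1) `τ` (`τ + 1` if `N ≠ 0`), where `τ` is the transcendence degree of the field of the RATIOS of the periods `C`;
(2) `⌊n / 2⌋` (`+ 1` if `N ≠ 0`), if `C` has complex multiplication and is polarised;
(3) uniformly in all rational structures `C` which are polarised by `S`, with rational `2 π i C⁻¹ N C`, the
dimension, minus one, of the Lie algebra of the similitudes of `S` which normalise `N` (`S = 0` is allowed).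
In particular every window near ANY point contains at most `ν / δ` CM points, if `δ` is the dimension of the orbits
of the Hodge flags, and if `n / 2 < δ` the windows near a CM point contain no other CM point, and not even a
point with algebraic Hodge flag. The earlier results for this problem (`GrowingDegreeCM`,
`GrowingDegreeSpecialLimits`) concern only points `x₀` with special limits and full monodromy.

Proof. Transversality for algebraic flags: if `F^p` is spanned by vectors with coordinates in a number field of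
bounded degree, then every derivation of the ultrapower of `ℂ` over the algebraic numbers of bounded degree
maps the rows which span `F^p` to linear combinations of these vectors. By the theorem on values of
G-functions at algebraic points of windows (helper916 and others) there are such derivations which act on the
period matrices of different points by arbitrary independent elements of `𝔤`, and on `C` in a way which does not
depend on the point. After the multiplication of `C` with a transcendental number the scalars are tangent to the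
relations, which improves the bound by one.
-/

set_option autoImplicit false

open PowerSeries

namespace Pool.Agent.Results.MP_2794d1_ag.AlgebraicFlagsWindows

/-- an integer polynomial as a power series with rational coefficients -/
noncomputable def toQ (P : Polynomial ℤ) : PowerSeries ℚ :=
  ((P.map (Int.castRingHom ℚ) : Polynomial ℚ) : PowerSeries ℚ)

/-- the power series `P(u^e)` -/
noncomputable def atPow (e : ℕ) (P : Polynomial ℤ) : PowerSeries ℂ :=
  ((Polynomial.expand ℂ e (P.map (Int.castRingHom ℂ)) : Polynomial ℂ) : PowerSeries ℂ)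

/-- the matrices `G_s` over `ℤ[x]` with `T^s y^(s) = G_s y` for all solutions `y` of `T y' = A y` -/
noncomputable def iter {r : ℕ} (T : Polynomial ℤ) (A : Fin r → Fin r → Polynomial ℤ) :
    ℕ → Fin r → Fin r → Polynomial ℤ
  | 0 => fun i j => if i = j then 1 else 0
  | s + 1 => fun i j => T * Polynomial.derivative (iter T A s i j) + ∑ l, iter T A s i l * A l j -
      (s : Polynomial ℤ) * (Polynomial.derivative T * iter T A s i j)

/-- The system `T y' = A y` has a fundamental matrix of solutions of the form `u^(-M) ∑_n Φ_n(u) (log u)^n`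
with `u^e = x` and convergent power series `Φ_n`: the point `0` is an ordinary point or a regular
singularity with rational exponents. -/
def QuasiUnipotent {r : ℕ} (T : Polynomial ℤ) (A : Fin r → Fin r → Polynomial ℤ) : Prop :=
  ∃ (e M : ℕ) (K : ℝ) (Φ : Matrix (Fin r) (Fin r) (Polynomial (PowerSeries ℂ))), 1 ≤ e ∧ Φ.det ≠ 0 ∧
    (∀ i j n m, ‖coeff m ((Φ i j).coeff n)‖ ≤ K ^ (m + 1)) ∧
    ∀ i j n, atPow e T * (X * PowerSeries.derivative ℂ ((Φ i j).coeff n) +
        ((n : PowerSeries ℂ) + 1) * (Φ i j).coeff (n + 1) - (M : PowerSeries ℂ) * (Φ i j).coeff n) =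
      (e : PowerSeries ℂ) * X ^ e * ∑ l, atPow e (A i l) * (Φ l j).coeff n

/-- `h_1, ..., h_r` are G-functions with rational coefficients which solve the differential system
`T y' = A y`, with the conditions of Siegel and Galochkin, and the system is regular with rational
exponents at `0`. -/
structure GFamily {r : ℕ} (T : Polynomial ℤ) (A : Fin r → Fin r → Polynomial ℤ)
    (h : Fin r → PowerSeries ℚ) : Prop where
  /-- the denominator is not zero -/
  T_ne : T ≠ 0
  /-- the differential equations -/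
  ode : ∀ i, toQ T * PowerSeries.derivative ℚ (h i) = ∑ j, toQ (A i j) * h j
  /-- the coefficients have geometric growth -/
  size : ∃ C : ℝ, ∀ i m, |((coeff m (h i) : ℚ) : ℝ)| ≤ C ^ (m + 1)
  /-- the common denominators of the coefficients have geometric growth -/
  den : ∃ C : ℝ, ∀ m : ℕ, ∃ d : ℕ, 0 < d ∧ (d : ℝ) ≤ C ^ (m + 1) ∧
    ∀ i, ∀ j ≤ m, ∃ a : ℤ, (d : ℚ) * coeff j (h i) = a
  /-- Galochkin's condition: the common denominators of the matrices `G_s / s!` have geometric growth -/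
  galochkin : ∃ C : ℝ, ∀ m : ℕ, ∃ d : ℕ, 0 < d ∧ (d : ℝ) ≤ C ^ (m + 1) ∧ ∀ s ≤ m, ∀ i j,
    ∃ H : Polynomial ℤ, (d : Polynomial ℤ) * iter T A s i j = (s.factorial : Polynomial ℤ) * H
  /-- the local exponents at `0` are rational and the singularity is regular -/
  regular : QuasiUnipotent T A

/-- rational matrices as complex matrices -/
def toC {α γ : Type} (M : Matrix α γ ℚ) : Matrix α γ ℂ := M.map fun x : ℚ => (x : ℂ)

/-- the values of the power series `h_1, ..., h_r` at `z` -/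
noncomputable def val {r : ℕ} (h : Fin r → PowerSeries ℚ) (z : ℂ) : Fin r → ℂ :=
  fun i => ∑' k : ℕ, ((coeff k (h i) : ℚ) : ℂ) * z ^ k

/-- the matrix with the entries `∑ β y`: linear combinations of `y_1, ..., y_r` -/
def comb {r n : ℕ} (β : Fin n × Fin n → Fin r → ℂ) (y : Fin r → ℂ) : Matrix (Fin n) (Fin n) ℂ :=
  Matrix.of fun i j => ∑ s, β (i, j) s * y s

/-- the exponential `exp (s X)` of a nilpotent matrix -/
noncomputable def expN {n : ℕ} (X : Matrix (Fin n) (Fin n) ℂ) (s : ℂ) : Matrix (Fin n) (Fin n) ℂ :=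
  ∑ a ∈ Finset.range n, (s ^ a / (a.factorial : ℂ)) • X ^ a

/-- The family: the matrix `H(x)` has the entries `∑ β h(x)` with algebraic `β`, it is invertible near
`x = 0`, `x ≠ 0`, and the period matrix of the variation is `H(x) x^N C`. The set `𝒩` consists of
directions of one-parameter groups of the monodromy group, every direction with its action `X.1` on the
solutions `h` and its action `X.2` on the cohomology: both are nilpotent, they are compatible with `β`, all
polynomial relations `R(x, h(x)) = 0` over `ℚ[x]` hold near `x = 0` also for the vectors `h(x) g`, where `g`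
is a product of matrices `exp (s X.1)`, `X ∈ 𝒩`, and the span of the `X.2` is normalised by the local
monodromy `exp (2 π i N)` (it is the Lie algebra of the subgroup of the monodromy group which fixes
`log x`). -/
structure Family {r n : ℕ} (β : Fin n × Fin n → Fin r → ℂ) (h : Fin r → PowerSeries ℚ)
    (N : Matrix (Fin n) (Fin n) ℚ)
    (𝒩 : Set (Matrix (Fin r) (Fin r) ℂ × Matrix (Fin n) (Fin n) ℂ)) : Prop where
  alg : ∀ a s, IsAlgebraic ℚ (β a s)
  det : ∃ ρ : ℝ, 0 < ρ ∧ ∀ z : ℂ, z ≠ 0 → ‖z‖ < ρ → (comb β (val h z)).det ≠ 0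
  nil : N ^ n = 0
  dir : ∀ X ∈ 𝒩, X.1 ^ r = 0 ∧ X.2 ^ n = 0
  equiv : ∀ X ∈ 𝒩, ∀ y : Fin r → ℂ, comb β (Matrix.vecMul y X.1) = comb β y * X.2
  normal : ∀ X ∈ 𝒩, ∀ s : ℂ, expN (toC N) s * X.2 * expN (toC N) (-s) ∈
    Submodule.span ℂ (Prod.snd '' 𝒩)
  inv : ∃ ρ : ℝ, 0 < ρ ∧ ∀ R : MvPolynomial (Fin r) (Polynomial ℚ), MvPolynomial.aeval h R = 0 →
    ∀ z : ℂ, ‖z‖ < ρ → ∀ g ∈ Submonoid.closure {g | ∃ X ∈ 𝒩, ∃ s : ℂ, g = expN X.1 s},
      MvPolynomial.eval₂ (Polynomial.aeval z : Polynomial ℚ →ₐ[ℚ] ℂ).toRingHom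
        (Matrix.vecMul (val h z) g) R = 0

/-- The period matrix `H(x) x^N C = H(x) exp (N log x) C` at `x = 1 / ξ`, with the value `-l` of `log x`,
where `exp l = ξ`; the rows belong to a basis of de Rham cohomology, the columns to a rational basis. -/
noncomputable def per {r n : ℕ} (β : Fin n × Fin n → Fin r → ℂ) (h : Fin r → PowerSeries ℚ)
    (N : Matrix (Fin n) (Fin n) ℚ) (C : Matrix (Fin n) (Fin n) ℂ) (ξ l : ℂ) :
    Matrix (Fin n) (Fin n) ℂ := comb β (val h (1 / ξ)) * expN (toC N) (-l) * C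

/-- The step `F^p` of the Hodge filtration in the rational coordinates: the span of the rows of level at least
`p` of the period matrix `B`. -/
def F {n : ℕ} (lev : Fin n → ℤ) (B : Matrix (Fin n) (Fin n) ℂ) (p : ℤ) : Submodule ℂ (Fin n → ℂ) :=
  Submodule.span ℂ {v | ∃ i : Fin n, p ≤ lev i ∧ v = B i}

/-- a subspace spanned by vectors with coordinates in `K` -/
def DefinedOver {n : ℕ} (K : IntermediateField ℚ ℂ) (W : Submodule ℂ (Fin n → ℂ)) : Prop :=
  ∃ s : Set (Fin n → K), W = Submodule.span ℂ ((fun x i => ((x i : K) : ℂ)) '' s)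

/-- Complex multiplication: there is a rational endomorphism with separable characteristic polynomial
which preserves the filtration, that is, the algebra of endomorphisms of the Hodge structure contains a
commutative semisimple algebra of the maximal dimension. -/
def HasCM {n : ℕ} (F : ℤ → Submodule ℂ (Fin n → ℂ)) : Prop :=
  ∃ a : Matrix (Fin n) (Fin n) ℚ, a.charpoly.Separable ∧
    ∀ p, ∀ v ∈ F p, Matrix.vecMul v (toC a) ∈ F p

/-- The step `F^p` is algebraic: the fibre has complex multiplication, or `F^p` is defined over a number field of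
degree at most `D`. -/
def AlgebraicStep {n : ℕ} (D : ℕ) (lev : Fin n → ℤ) (B : Matrix (Fin n) (Fin n) ℂ) (p : ℤ) : Prop :=
  HasCM (F lev B) ∨ ∃ K : IntermediateField ℚ ℂ, FiniteDimensional ℚ K ∧ Module.finrank ℚ K ≤ D ∧
    DefinedOver K (F lev B p)

/-- the operators which preserve all algebraic steps of the Hodge filtration -/
def Stab {n : ℕ} (D : ℕ) (lev : Fin n → ℤ) (B : Matrix (Fin n) (Fin n) ℂ) :
    Submodule ℂ (Matrix (Fin n) (Fin n) ℂ) where
  carrier := {X | ∀ p, AlgebraicStep D lev B p → ∀ v ∈ F lev B p, Matrix.vecMul v X ∈ F lev B p}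
  add_mem' := fun hX hY p hA v hv => by
    rw [Matrix.vecMul_add]
    exact Submodule.add_mem _ (hX p hA v hv) (hY p hA v hv)
  zero_mem' := fun p _ v _ => by
    rw [Matrix.vecMul_zero]
    exact Submodule.zero_mem _
  smul_mem' := fun c X hX p hA v hv => by
    rw [Matrix.vecMul_smul]
    exact Submodule.smul_mem _ c (hX p hA v hv)

/-- the conjugation `Y ↦ C⁻¹ Y C` from the flat coordinates to the rational coordinates -/
noncomputable def conjBy {n : ℕ} (C : Matrix (Fin n) (Fin n) ℂ) :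
    Matrix (Fin n) (Fin n) ℂ →ₗ[ℂ] Matrix (Fin n) (Fin n) ℂ where
  toFun := fun Y => C⁻¹ * Y * C
  map_add' := fun Y Y' => by rw [Matrix.mul_add, Matrix.add_mul]
  map_smul' := fun c Y => by
    rw [Matrix.mul_smul, Matrix.smul_mul]
    rfl

/-- the Lie algebra of the monodromy group in the flat coordinates: the span of `N` and of the directions
in `𝒩` -/
def mon {r n : ℕ} (N : Matrix (Fin n) (Fin n) ℚ)
    (𝒩 : Set (Matrix (Fin r) (Fin r) ℂ × Matrix (Fin n) (Fin n) ℂ)) :
    Submodule ℂ (Matrix (Fin n) (Fin n) ℂ) := Submodule.span ℂ (Prod.snd '' 𝒩 ∪ {toC N})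

/-- The codimension of the point `x = 1 / ξ` with the logarithm `l` of `ξ`: the dimension of `𝔤 / (𝔤 ∩ Stab)`, where `𝔤`
is the Lie algebra of the monodromy group in the rational coordinates. For a CM point, and for a point all
steps of whose Hodge filtration are defined over number fields of degree at most `D`, this is the dimension
of the orbit of the Hodge flag under the complex monodromy group. -/
noncomputable def codim {n r : ℕ} (D : ℕ) (lev : Fin n → ℤ) (β : Fin n × Fin n → Fin r → ℂ)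
    (h : Fin r → PowerSeries ℚ) (N : Matrix (Fin n) (Fin n) ℚ)
    (𝒩 : Set (Matrix (Fin r) (Fin r) ℂ × Matrix (Fin n) (Fin n) ℂ)) (C : Matrix (Fin n) (Fin n) ℂ) (ξ l : ℂ) : ℕ :=
  Module.finrank ℂ ((mon N 𝒩).map (conjBy C)) -
    Module.finrank ℂ ((mon N 𝒩).map (conjBy C) ⊓ Stab D lev (per β h N C ξ l) : Submodule ℂ _)

/-- The window `x = 1 / (ξ - G u)`, `1 ≤ u ≤ W`, with the branch of the logarithm given by `l = log ξ`: the sum of the
codimensions of all points of the window is at most `ν`. -/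
def WindowBound {n r : ℕ} (D : ℕ) (lev : Fin n → ℤ) (β : Fin n × Fin n → Fin r → ℂ)
    (h : Fin r → PowerSeries ℚ) (N : Matrix (Fin n) (Fin n) ℚ)
    (𝒩 : Set (Matrix (Fin r) (Fin r) ℂ × Matrix (Fin n) (Fin n) ℂ)) (ν G W : ℕ)
    (C : Matrix (Fin n) (Fin n) ℂ) (ξ l : ℂ) : Prop :=
  ∑ u ∈ Finset.Icc 1 W, codim D lev β h N 𝒩 C (ξ - ((G * u : ℕ) : ℂ))
    (l + Complex.log (1 - ((G * u : ℕ) : ℂ) / ξ)) ≤ ν

/-- The fibre with the period matrix `C` has complex multiplication, algebraically: there is a rational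
endomorphism `M` with `n` different eigenvalues which is algebraic in the coordinates of de Rham cohomology (for
abelian motives all rational Hodge endomorphisms are algebraic in this sense, by Deligne). -/
def ComplexMultiplication {n : ℕ} (C : Matrix (Fin n) (Fin n) ℂ) : Prop :=
  ∃ (M : Matrix (Fin n) (Fin n) ℚ) (A : Matrix (Fin n) (Fin n) ℂ), M.charpoly.Separable ∧
    (∀ i j, IsAlgebraic ℚ (A i j)) ∧ C * toC M = A * C

/-- the form with the matrix `S` in the flat coordinates is proportional to a rational form -/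
def Polarised {n : ℕ} (S : Matrix (Fin n) (Fin n) ℚ) (C : Matrix (Fin n) (Fin n) ℂ) : Prop :=
  ∃ (P : Matrix (Fin n) (Fin n) ℚ) (κ : ℂ), κ ≠ 0 ∧ C * toC P * C.transpose = κ • toC S

/-- the Lie algebra of the infinitesimal similitudes of the form `S` which normalise the line of `N` -/
def Similitudes {n : ℕ} (N S : Matrix (Fin n) (Fin n) ℂ) : Submodule ℂ (Matrix (Fin n) (Fin n) ℂ) where
  carrier := {Z | (∃ μ : ℂ, Z * N - N * Z = μ • N) ∧ ∃ η : ℂ, Z * S + S * Z.transpose = η • S}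
  add_mem' := fun hZ hZ' => (Pool.Agent.T2h17.TV.Nrm N S).add_mem hZ hZ'
  zero_mem' := (Pool.Agent.T2h17.TV.Nrm N S).zero_mem
  smul_mem' := fun c _ hZ => (Pool.Agent.T2h17.TV.Nrm N S).smul_mem c hZ

/-- The base change `C` from the flat basis to a rational basis is a polarised rational structure: the
logarithm `2 π i C⁻¹ N C` of the local monodromy is rational and the form with the matrix `S` in the flat
basis is proportional to a rational form. -/
structure RationalStructure {n : ℕ} (S N : Matrix (Fin n) (Fin n) ℚ) (C : Matrix (Fin n) (Fin n) ℂ) :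
    Prop where
  det : C.det ≠ 0
  log : ∃ M : Matrix (Fin n) (Fin n) ℚ, C * toC M = (2 * (Real.pi : ℂ) * Complex.I) • (toC N * C)
  form : ∃ (P : Matrix (Fin n) (Fin n) ℚ) (κ : ℂ), κ ≠ 0 ∧ C * toC P * C.transpose = κ • toC S

/-- the transcendence degree of the field which is generated by the entries of `C` is at most `τ` -/
def TrdegLe {n : ℕ} (C : Matrix (Fin n) (Fin n) ℂ) (τ : ℕ) : Prop :=
  Algebra.trdeg ℚ (IntermediateField.adjoin ℚ (Set.range fun a : Fin n × Fin n => C a.1 a.2)) ≤ τ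

/-- `ξ` is a root of a nonzero integral polynomial of degree at most `g` with coefficients of size at
most `|ξ|^A` -/
def Height (g A : ℕ) (ξ : ℂ) : Prop :=
  ∃ p : Polynomial ℤ, p ≠ 0 ∧ p.natDegree ≤ g ∧ (∀ j, |(p.coeff j : ℝ)| ≤ ‖ξ‖ ^ A) ∧
    Polynomial.aeval ξ p = 0

theorem iter_eq {r : ℕ} (T : Polynomial ℤ) (A : Fin r → Fin r → Polynomial ℤ) (s : ℕ) :
    iter T A s = Pool.Agent.Y120.GH.itm T A s := by
  induction s with
  | zero => rfl
  | succ s ih =>
    funext i j
    rw [iter, Pool.Agent.Y120.GH.itm, ih]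

theorem qu_eq {r : ℕ} {T : Polynomial ℤ} {A : Fin r → Fin r → Polynomial ℤ} (h : QuasiUnipotent T A) :
    Pool.Agent.Y120.GH.QU0 T A := by
  obtain ⟨e, M, K, Φ, he, hdet, hc, heq⟩ := h
  have he0 : e ≠ 0 := by omega
  refine ⟨e, he0, M, K, Φ, hc, fun i j n => ?_, hdet⟩
  have h1 := heq i j n
  simp only [atPow] at h1
  rw [Pool.Agent.Y120.GH.expand_poly he0]
  simp only [Pool.Agent.Y120.GH.expand_poly he0]
  exact h1

theorem gfam_eq {r : ℕ} {T : Polynomial ℤ} {A : Fin r → Fin r → Polynomial ℤ}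
    {h : Fin r → PowerSeries ℚ} (hG : GFamily T A h) : Pool.Agent.Y916.Af.GFam T A h where
  hT := hG.T_ne
  hode := hG.ode
  hsize := hG.size
  hden := hG.den
  hgal := by
    obtain ⟨C, hC⟩ := hG.galochkin
    refine ⟨C, fun m => ?_⟩
    obtain ⟨d, h1, h2, h3⟩ := hC m
    refine ⟨d, h1, h2, fun s hs i' j' => ?_⟩
    rw [← iter_eq]
    exact h3 s hs i' j'
  hqu := qu_eq hG.regular

theorem height_eq (g A : ℕ) (ξ : ℂ) : Height g A ξ ↔ Pool.Agent.Y916.Al.Ht g A ξ := Iff.rfl

/-- the bound for a fixed rational structure -/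
theorem finrank_fixed {n : ℕ} {C : Matrix (Fin n) (Fin n) ℂ} (hC : C.det ≠ 0) {τ : ℕ}
    (hτ : TrdegLe C τ) (N : Matrix (Fin n) (Fin n) ℚ) : ∃ d : ℕ,
    Module.finrank ℂ (Pool.Agent.T2h17.TV.Tg d C ⊔ Submodule.span ℂ {toC N} : Submodule ℂ _) ≤
      τ + if N = 0 then 0 else 1 := by
  obtain ⟨d, hd⟩ := Pool.Agent.T2h17.TV.finrank_Tg hC
  refine ⟨d, ?_⟩
  have h1 : Module.finrank ℂ (Pool.Agent.T2h17.TV.Tg d C) ≤ τ := by
    exact_mod_cast hd.trans hτ
  split_ifs with hN
  · subst hN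
    have h2 : toC (0 : Matrix (Fin n) (Fin n) ℚ) = 0 := by
      ext i j
      simp [toC]
    rw [h2, Submodule.span_zero_singleton, sup_bot_eq]
    exact h1
  · refine (Submodule.finrank_add_le_finrank_add_finrank _ _).trans (Nat.add_le_add h1 ?_)
    refine (finrank_span_le_card _).trans ?_
    simp

/-- the similitudes -/
theorem le_sim {n : ℕ} {S N : Matrix (Fin n) (Fin n) ℚ} {C : Matrix (Fin n) (Fin n) ℂ}
    (hN : toC N * toC S + toC S * (toC N).transpose = 0) (hC : RationalStructure S N C) :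
    Pool.Agent.T2h17.TV.Tg 2 C ⊔ Submodule.span ℂ {toC N} ≤ Similitudes (toC N) (toC S) := by
  obtain ⟨hdet, ⟨M, hM⟩, P, κ, hκ, hP⟩ := hC
  refine sup_le ?_ ?_
  · intro Z hZ
    exact Pool.Agent.T2h17.TV.Tg_le_Nrm hdet Complex.two_pi_I_ne_zero hM hκ hP hZ
  · rw [Submodule.span_le, Set.singleton_subset_iff]
    exact ⟨⟨0, by rw [sub_self, zero_smul]⟩, 0, by rw [hN, zero_smul]⟩

theorem one_sim {n : ℕ} (N S : Matrix (Fin n) (Fin n) ℂ) :
    (1 : Matrix (Fin n) (Fin n) ℂ) ∈ Similitudes N S := by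
  refine ⟨⟨0, by rw [Matrix.one_mul, Matrix.mul_one, sub_self, zero_smul]⟩, 2, ?_⟩
  rw [Matrix.one_mul, Matrix.transpose_one, Matrix.mul_one, two_smul]

/-- the transversality theorem in windows -/
theorem windows {n r : ℕ} {T : Polynomial ℤ} {A : Fin r → Fin r → Polynomial ℤ}
    {h : Fin r → PowerSeries ℚ} (hG : GFamily T A h) {β : Fin n × Fin n → Fin r → ℂ}
    {N : Matrix (Fin n) (Fin n) ℚ}
    {𝒩 : Set (Matrix (Fin r) (Fin r) ℂ × Matrix (Fin n) (Fin n) ℂ)} (hM : Family β h N 𝒩) :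
    ∃ G0 : ℕ, 1 ≤ G0 ∧ ∀ G : ℕ, G0 ≤ G → ∀ (k g A₀ d D : ℕ) (𝒮 : Set (Finset (Fin n))), ∃ E : ℕ, ∀ (W : ℕ) (ξ l : ℂ),
      ((W : ℝ) + 2) ^ E ≤ ‖ξ‖ → Height g A₀ ξ → ∀ C : Matrix (Fin n) (Fin n) ℂ, C.det ≠ 0 →
      ∀ u : Fin k → ℕ, Function.Injective u → (∀ j, 1 ≤ u j ∧ u j ≤ W) →
      (∀ j, (comb β (val h (1 / (ξ - ((G * u j : ℕ) : ℂ))))).det ≠ 0) ∧
      Pool.Agent.T2h17.FW.TransF β N 𝒩 d D 𝒮 C
        (fun j => val h (1 / (ξ - ((G * u j : ℕ) : ℂ)))) l (Pool.Agent.T2h17.TV.lw G ξ u) := by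
  obtain ⟨ρ₁, hρ₁, hinv⟩ := hM.inv
  obtain ⟨ρ₂, hρ₂, hdet⟩ := hM.det
  set ρ' : ℝ := min ρ₁ ρ₂ with hρ'
  have hρ'0 : 0 < ρ' := lt_min hρ₁ hρ₂
  have hρ'2 : ρ' ≤ ρ₁ := min_le_left _ _
  have hρ'3 : ρ' ≤ ρ₂ := min_le_right _ _
  have hcl : Submonoid.closure {g | ∃ X ∈ 𝒩, ∃ s : ℂ, g = expN X.1 s} =
      Pool.Agent.T2h17.HW.Grp (Prod.fst '' 𝒩) := by
    unfold Pool.Agent.T2h17.HW.Grp
    congr 1
    ext g
    constructor
    · rintro ⟨X, hX, s, rfl⟩
      exact ⟨X.1, ⟨X, hX, rfl⟩, s, rfl⟩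
    · rintro ⟨_, ⟨X, hX, rfl⟩, s, rfl⟩
      exact ⟨X, hX, s, rfl⟩
  have hinv' : Pool.Agent.T2h17.AH.InvV h (Prod.fst '' 𝒩) ρ' := fun R hR z hz g hg =>
    hinv R hR z (hz.trans_le hρ'2) g (by rw [hcl]; exact hg)
  have hnr := Pool.Agent.Y916.Af.nrh_of_gfam (gfam_eq hG)
  obtain ⟨G0, hG0, h1⟩ := Pool.Agent.T2h17.AH.win_relv hnr hρ'0 hinv'
  refine ⟨G0, hG0, fun G hGG k g A₀ d D 𝒮 => ?_⟩
  obtain ⟨e, he⟩ := Pool.Agent.T2h17.FW.transF k hM.alg hM.nil (fun X hX => (hM.dir X hX).1) hM.equiv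
    (by
      rintro _ ⟨X, hX, rfl⟩ s
      exact hM.normal X hX s) d D 𝒮
  obtain ⟨E, hE⟩ := h1 G hGG k g A₀ e
  refine ⟨E, fun W ξ l hξ hht C hC u hu hub => ?_⟩
  obtain ⟨hnear, h2⟩ := hE W ξ hξ
  have h3 : ∀ j, (comb β (val h (1 / (ξ - ((G * u j : ℕ) : ℂ))))).det ≠ 0 := fun j =>
    hdet _ (one_div_ne_zero (hnear (u j) (hub j).2).2) ((hnear (u j) (hub j).2).1.trans_le hρ'3)
  exact ⟨h3, he C _ l _ hC h3 (h2 hht u hu hub)⟩

/-- the steps of the Hodge filtration as spans of rows -/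
theorem F_eq {n : ℕ} (lev : Fin n → ℤ) (B : Matrix (Fin n) (Fin n) ℂ) (p : ℤ) :
    F lev B p = Pool.Agent.T2h17.FW.Rows (Finset.univ.filter fun i => p ≤ lev i) B := by
  unfold F Pool.Agent.T2h17.FW.Rows
  congr 1
  ext v
  constructor
  · rintro ⟨i, hi, rfl⟩
    exact ⟨i, by rw [Finset.mem_coe, Finset.mem_filter]; exact ⟨Finset.mem_univ _, hi⟩, rfl⟩
  · rintro ⟨i, hi, rfl⟩
    rw [Finset.mem_coe, Finset.mem_filter] at hi
    exact ⟨i, hi.2, rfl⟩

/-- the sets of rows of the steps of the Hodge filtration -/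
def rowSets {n : ℕ} (lev : Fin n → ℤ) : Set (Finset (Fin n)) :=
  {s | ∃ p : ℤ, s = Finset.univ.filter fun i => p ≤ lev i}

/-- comparison of the stabilisers -/
theorem stab_le {n D D0 : ℕ} (hD : D ≤ D0) (hn : n ^ n ≤ D0) (lev : Fin n → ℤ) (B : Matrix (Fin n) (Fin n) ℂ) :
    Pool.Agent.T2h17.FW.StabF D0 (rowSets lev) B ≤ Stab D lev B := by
  intro X hX p hp v hv
  rw [F_eq] at hv ⊢
  refine hX _ ⟨p, rfl⟩ ?_ v hv
  rw [← F_eq]
  rcases hp with ⟨a, ha, h1⟩ | ⟨K, hK, hKD, s, hs⟩
  · exact (Pool.Agent.T2h17.FW.algF_cm a ha (h1 p)).mono hn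
  · exact (Pool.Agent.T2h17.FW.algF_of hK hKD hs).mono hD

/-- from tuples of bounded size to all points of the window -/
theorem total_of {W ν : ℕ} {c : ℕ → ℕ} (h : ∀ k ≤ ν + 1, ∀ u : Fin k → ℕ, Function.Injective u →
    (∀ j, 1 ≤ u j ∧ u j ≤ W) → ∑ j, c (u j) ≤ ν) : ∑ u ∈ Finset.Icc 1 W, c u ≤ ν := by
  classical
  set S : Finset ℕ := (Finset.Icc 1 W).filter fun u => c u ≠ 0 with hS
  have hsub : ∀ Ω ⊆ S, Ω.card ≤ ν + 1 → ∑ u ∈ Ω, c u ≤ ν := by
    intro Ω hΩ hcard
    have h1 := h Ω.card hcard (fun i => (Ω.equivFin.symm i : ℕ))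
      (fun i j hij => Ω.equivFin.symm.injective (Subtype.ext hij)) (fun j => by
        have h2 := hΩ (Ω.equivFin.symm j).2
        rw [hS, Finset.mem_filter, Finset.mem_Icc] at h2
        exact h2.1)
    have h2 : ∑ j, c (Ω.equivFin.symm j : ℕ) = ∑ u ∈ Ω, c u := by
      rw [← Finset.sum_coe_sort Ω c]
      exact Equiv.sum_comp Ω.equivFin.symm fun u : Ω => c (u : ℕ)
    rwa [h2] at h1
  have hSc : S.card ≤ ν := by
    by_contra hcon
    push Not at hcon
    obtain ⟨Ω, hΩ, hcard⟩ := Finset.exists_subset_card_eq (Nat.succ_le_of_lt hcon)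
    have h1 := hsub Ω hΩ hcard.le
    have h2 : Ω.card ≤ ∑ u ∈ Ω, c u := by
      rw [Finset.card_eq_sum_ones]
      refine Finset.sum_le_sum fun u hu => ?_
      have h3 := hΩ hu
      rw [hS, Finset.mem_filter] at h3
      omega
    omega
  have h1 := hsub S subset_rfl (by omega)
  have h2 : ∑ u ∈ Finset.Icc 1 W, c u = ∑ u ∈ S, c u := by
    rw [hS, Finset.sum_filter_ne_zero]
  rw [h2]
  exact h1

/-- the bound in the windows -/
theorem core {n r : ℕ} {T : Polynomial ℤ} {A : Fin r → Fin r → Polynomial ℤ}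
    {h : Fin r → PowerSeries ℚ} (hG : GFamily T A h) {β : Fin n × Fin n → Fin r → ℂ}
    {N : Matrix (Fin n) (Fin n) ℚ}
    {𝒩 : Set (Matrix (Fin r) (Fin r) ℂ × Matrix (Fin n) (Fin n) ℂ)} (hM : Family β h N 𝒩) (hn : 1 ≤ n)
    (lev : Fin n → ℤ) (D : ℕ) :
    ∃ G0 : ℕ, ∀ G : ℕ, G0 ≤ G → ∀ g A₀ d ν : ℕ, ∃ E : ℕ, ∀ (W : ℕ) (ξ l : ℂ),
      ((W : ℝ) + 2) ^ E ≤ ‖ξ‖ → Height g A₀ ξ → ∀ C : Matrix (Fin n) (Fin n) ℂ, C.det ≠ 0 →
      ∀ x : ℂ, x ≠ 0 → ∀ T' : Submodule ℂ (Matrix (Fin n) (Fin n) ℂ),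
      Pool.Agent.T2h17.TV.Tg d (x • C) ⊔ Submodule.span ℂ {toC N} ≤ T' →
      (1 : Matrix (Fin n) (Fin n) ℂ) ∈ T' → Module.finrank ℂ T' ≤ ν + 1 →
      WindowBound D lev β h N 𝒩 ν G W C ξ l := by
  classical
  obtain ⟨G0, hG0, hwin⟩ := windows hG hM
  refine ⟨G0, fun G hGG g A₀ d ν => ?_⟩
  choose E hE using fun K' : ℕ => hwin G hGG K' g A₀ d (max D (n ^ n)) (rowSets lev)
  refine ⟨(Finset.range (ν + 2)).sup E, fun W ξ l hξ hht C hC x hx T' hT' h1T hfr => ?_⟩
  have hEK : ∀ K' ≤ ν + 1, ((W : ℝ) + 2) ^ E K' ≤ ‖ξ‖ := by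
    intro K' hK'
    refine le_trans (pow_le_pow_right₀ (by have := Nat.cast_nonneg (α := ℝ) W; linarith) ?_) hξ
    exact Finset.le_sup (f := E) (Finset.mem_range.2 (by omega))
  have hC' : (x • C).det ≠ 0 := by
    rw [Matrix.det_smul]
    exact mul_ne_zero (pow_ne_zero _ hx) hC
  refine total_of fun k hk u hu hub => ?_
  obtain ⟨-, h1⟩ := hE k W ξ l (hEK k hk) hht (x • C) hC' u hu hub
  refine le_trans (Finset.sum_le_sum fun j _ => ?_) (Pool.Agent.T2h17.FW.totalF h1 hT' hC' hn ⟨h1T, hfr⟩)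
  have h2 : (mon N 𝒩).map (conjBy C) = (mon N 𝒩).map (Pool.Agent.T2h17.TV.cj (x • C)) := by
    rw [Pool.Agent.T2h17.FW.cj_smul hC hx]
    rfl
  have h3 : Pool.Agent.T2h17.FW.StabF (max D (n ^ n)) (rowSets lev)
      (Pool.Agent.T2h17.AH.bt β (val h (1 / (ξ - ((G * u j : ℕ) : ℂ)))) *
        Pool.Agent.T2h17.HW.En (Pool.Agent.T2h17.HW.tc N) (-(l + Pool.Agent.T2h17.TV.lw G ξ u j)) * (x • C)) ≤
      Stab D lev (per β h N C (ξ - ((G * u j : ℕ) : ℂ)) (l + Complex.log (1 - ((G * u j : ℕ) : ℂ) / ξ))) := by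
    rw [Matrix.mul_smul, Pool.Agent.T2h17.FW.StabF_smul hx]
    exact stab_le (le_max_left _ _) (le_max_right _ _) lev _
  unfold codim
  rw [h2]
  exact Nat.sub_le_sub_left (Submodule.finrank_mono (inf_le_inf_left _ h3)) _

/-- the bound for a fixed rational structure -/
theorem fixed {n : ℕ} {C : Matrix (Fin n) (Fin n) ℂ} (hC : C.det ≠ 0) {τ : ℕ}
    (hτ : ∃ x : ℂ, x ≠ 0 ∧ TrdegLe (x • C) τ) (N : Matrix (Fin n) (Fin n) ℚ) :
    ∃ (x : ℂ) (d : ℕ), x ≠ 0 ∧
      (1 : Matrix (Fin n) (Fin n) ℂ) ∈ (Pool.Agent.T2h17.TV.Tg d (x • C) ⊔ Submodule.span ℂ {toC N} : Submodule ℂ _) ∧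
      Module.finrank ℂ (Pool.Agent.T2h17.TV.Tg d (x • C) ⊔ Submodule.span ℂ {toC N} : Submodule ℂ _) ≤
        (τ + if N = 0 then 0 else 1) + 1 := by
  obtain ⟨x, hx, hdet, h1, h2⟩ := Pool.Agent.T2h17.SM.scale2 hC hτ
  obtain ⟨d, hd⟩ := finrank_fixed hdet h1 N
  exact ⟨x, d, hx, Submodule.mem_sup_left (h2 d), by omega⟩

/-- Let `h_1, …, h_r` be G-functions with rational coefficients, `H = ∑ β h` with algebraic `β`, `N` the logarithm of
the local monodromy, `n ≥ 1`, let `lev` be the levels of the rows for the Hodge filtration, and let `D` be a bound for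
the degrees of number fields. Consider windows, with a sufficiently large `G`: all algebraic `ξ` of degree `≤ g` and
height `≤ |ξ|^A₀` with `(W + 2)^E ≤ |ξ|` and the points `x = 1 / (ξ - G u)`, `1 ≤ u ≤ W`. In every window the sum of the
codimensions of all points is at most `ν`, where
(1) for a fixed `C` some multiple of which has transcendence degree at most `τ`: `ν = τ` if `N = 0`, `τ + 1`
otherwise;
(2) for a fixed polarised `C` with complex multiplication: `ν = ⌊n / 2⌋` if `N = 0`, `⌊n / 2⌋ + 1` otherwise;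
(3) uniformly in all rational structures `C` which are polarised by `S`: `ν + 1` is the dimension of the Lie
algebra of the similitudes of `S` which normalise `N`. -/
theorem result {n r : ℕ} (hn : 1 ≤ n) (T : Polynomial ℤ) (A : Fin r → Fin r → Polynomial ℤ)
    (h : Fin r → PowerSeries ℚ) (hG : GFamily T A h) (β : Fin n × Fin n → Fin r → ℂ)
    (N : Matrix (Fin n) (Fin n) ℚ)
    (𝒩 : Set (Matrix (Fin r) (Fin r) ℂ × Matrix (Fin n) (Fin n) ℂ)) (hM : Family β h N 𝒩)
    (lev : Fin n → ℤ) (D : ℕ) :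
    ∃ G0 : ℕ, ∀ G : ℕ, G0 ≤ G → ∀ g A₀ : ℕ,
      (∀ (C : Matrix (Fin n) (Fin n) ℂ) (τ : ℕ), C.det ≠ 0 → (∃ x : ℂ, x ≠ 0 ∧ TrdegLe (x • C) τ) →
        ∃ E : ℕ, ∀ (W : ℕ) (ξ l : ℂ), ((W : ℝ) + 2) ^ E ≤ ‖ξ‖ → Height g A₀ ξ → Complex.exp l = ξ →
        WindowBound D lev β h N 𝒩 (τ + if N = 0 then 0 else 1) G W C ξ l) ∧
      (∀ (C : Matrix (Fin n) (Fin n) ℂ) (S : Matrix (Fin n) (Fin n) ℚ), C.det ≠ 0 → S.det ≠ 0 →
        Polarised S C → ComplexMultiplication C →
        ∃ E : ℕ, ∀ (W : ℕ) (ξ l : ℂ), ((W : ℝ) + 2) ^ E ≤ ‖ξ‖ → Height g A₀ ξ → Complex.exp l = ξ →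
        WindowBound D lev β h N 𝒩 (n / 2 + if N = 0 then 0 else 1) G W C ξ l) ∧
      (∀ S : Matrix (Fin n) (Fin n) ℚ, toC N * toC S + toC S * (toC N).transpose = 0 →
        ∃ E : ℕ, ∀ (W : ℕ) (ξ l : ℂ), ((W : ℝ) + 2) ^ E ≤ ‖ξ‖ → Height g A₀ ξ → Complex.exp l = ξ →
        ∀ C : Matrix (Fin n) (Fin n) ℂ, RationalStructure S N C →
        WindowBound D lev β h N 𝒩 (Module.finrank ℂ (Similitudes (toC N) (toC S)) - 1) G W C ξ l) := by
  obtain ⟨G0, hcore⟩ := core hG hM hn lev D
  have hfix : ∀ (C : Matrix (Fin n) (Fin n) ℂ) (τ : ℕ), C.det ≠ 0 → (∃ x : ℂ, x ≠ 0 ∧ TrdegLe (x • C) τ) →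
      ∀ G : ℕ, G0 ≤ G → ∀ g A₀ : ℕ,
        ∃ E : ℕ, ∀ (W : ℕ) (ξ l : ℂ), ((W : ℝ) + 2) ^ E ≤ ‖ξ‖ → Height g A₀ ξ → Complex.exp l = ξ →
        WindowBound D lev β h N 𝒩 (τ + if N = 0 then 0 else 1) G W C ξ l := by
    intro C τ hC hτ G hGG g A₀
    obtain ⟨x, d, hx, h1, h2⟩ := fixed hC hτ N
    obtain ⟨E, hE⟩ := hcore G hGG g A₀ d (τ + if N = 0 then 0 else 1)
    exact ⟨E, fun W ξ l hξ hht _ => hE W ξ l hξ hht C hC x hx _ le_rfl h1 h2⟩
  refine ⟨G0, fun G hGG g A₀ => ⟨?_, ?_, ?_⟩⟩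
  · exact fun C τ hC hτ => hfix C τ hC hτ G hGG g A₀
  · rintro C S hC hS ⟨P, κ, hκ, hP⟩ ⟨M, B, hM', hB, hCM⟩
    exact hfix C (n / 2) hC (Pool.Agent.T2h17.SM.cmt2 hS hC hκ hP hB hCM hM') G hGG g A₀
  · intro S hSN
    obtain ⟨E, hE⟩ := hcore G hGG g A₀ 2 (Module.finrank ℂ (Similitudes (toC N) (toC S)) - 1)
    refine ⟨E, fun W ξ l hξ hht _ C hC => ?_⟩
    refine hE W ξ l hξ hht C hC.det 1 one_ne_zero (Similitudes (toC N) (toC S)) ?_ (one_sim _ _) (by omega)
    rw [one_smul]
    exact le_sim hSN hC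

end Pool.Agent.Results.MP_2794d1_ag.AlgebraicFlagsWindows
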