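import Mathlib
import Pool.Agent.T2h17.GH.All
import Pool.Agent.T2h17.GH.BigG
import Pool.Agent.T2h17.GH.Cnt
import Pool.Agent.T2h17.CM.Cm
import Pool.Agent.T2h17.CM.Fc

/-!
# CM points of families of Calabi–Yau varieties: a polynomial height bound near a large complex structure limit

Let `𝒱` be a polarised variation of Hodge structure of rank `n` and weight `k ≥ 3` over an open part of
the projective line, which comes from a family of varieties over `ℚ(x)`, with Hodge numbers
`h^{k,0} = 1`, `h^{k-1,1} = h ≥ 1` and arbitrary other Hodge numbers, for instance the middle cohomology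
of a family of Calabi–Yau varieties of dimension `k`. We suppose that `x = 0` is a large complex structure
limit: the logarithm `N` of the local monodromy satisfies `N^k ≠ 0` and has the ranks of a limit of
Hodge–Tate type, `rank N^{k-1} = 2`, `rank N^{k-2} = h + 2` (it has one Jordan block of size `k + 1`,
`h - 1` blocks of size `k - 1`, and the other blocks are smaller), and that the monodromy group is as
large as possible: the connected component of its Zariski closure is the symplectic group for odd `k`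
and the special orthogonal group for even `k`. The variation need not be hypergeometric and can have any
number of singularities. It is not of Shimura type, so by the André–Oort conjecture for variations of Hodge
structure it should have only finitely many CM points.

With respect to a basis of sections over `ℚ(x)` adapted to the Hodge filtration and to a basis of
flat sections for which `N` is rational, the period matrix is `H(x) x^N` with a matrix `H` of
G-functions with rational coefficients; the flat polarisation is given by a rational matrix `S` and its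
matrix with respect to the algebraic basis is `H S Hᵀ = B / p` with polynomials `B`, `p`. The rational
structure is given by an invertible matrix `C` (its entries are periods of the limiting mixed Hodge
structure). We only use that the logarithm of the monodromy at `x = 0` and, up to a factor, the
polarisation are rational.

We prove that the CM points have large Galois orbits: there is a constant `c` such that for all `D` and
all algebraic numbers `ξ` of degree `≤ D` and of height `≤ |ξ|^D` such that the fibre at `x = 1 / ξ` has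
complex multiplication, for some polarised rational structure which may depend on `ξ`, we have
`log |ξ| ≤ (D + 2)^c`, and that at most `2^((D+2)^c)` algebraic integers `ξ` of degree `≤ D` have the
property that all fibres at the points `1 / ξ'` of a given disc `|x| < 1 / R`, `ξ'` conjugate to `ξ`, have
complex multiplication. The same is true for the points where `F^k ⊂ F^{k-1}` are both defined over a
number field of degree at most `(D + 2)^c₀`, for any exponent `c₀`.

Proof. All polynomial relations of bounded degree over number fields of degree `≤ (D + 2)^c` between the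
entries of `H(1 / ξ)`, `ξ` of degree `≤ D`, `log |ξ| ≥ (D + 2)^t`, hold on the orbit of the group. If `F^k`,
`F^{k-1}` are defined over the number field `K` then the quotient of `Q^{-1}(φ, φ)` by `q(v, v)` is in `K`,
where `Q(w, w') = S(N^{k-2} w, w')` on `F^{k-1}`, `φ(w) = S(N^{k-1} v, w)`, `q(v, v) = S(N^k v, v)` and `v`
generates `F^k`, because the unknown scalars (`2 π i`, the factor of the polarisation and the scalar of `v`)
cancel. This is a relation over `K`, but the group acts transitively on the isotropic flags (Witt), and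
there are isotropic flags for which this quotient is any other number.
-/

set_option autoImplicit false

open PowerSeries

namespace Pool.Agent.Results.MP_2794d1_ag.GrowingDegreeCM

/-- an integer polynomial as a power series with rational coefficients -/
noncomputable def toQ (P : Polynomial ℤ) : PowerSeries ℚ :=
  ((P.map (Int.castRingHom ℚ) : Polynomial ℚ) : PowerSeries ℚ)

/-- the matrices `G_s` over `ℤ[x]` with `T^s y^(s) = G_s y` for all solutions `y` of `T y' = A y` -/
noncomputable def iter {r : ℕ} (T : Polynomial ℤ) (A : Fin r → Fin r → Polynomial ℤ) :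
    ℕ → Fin r → Fin r → Polynomial ℤ
  | 0 => fun i j => if i = j then 1 else 0
  | s + 1 => fun i j => T * Polynomial.derivative (iter T A s i j) + ∑ l, iter T A s i l * A l j -
      (s : Polynomial ℤ) * (Polynomial.derivative T * iter T A s i j)

/-- `h_1, ..., h_r` are G-functions with rational coefficients which solve the differential system
`T y' = A y`, with the conditions of Siegel and Galochkin. -/
structure GFamily {r : ℕ} (T : Polynomial ℤ) (A : Fin r → Fin r → Polynomial ℤ)
    (h : Fin r → PowerSeries ℚ) : Prop where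
  /-- the denominator is not zero -/
  T_ne : T ≠ 0
  /-- the differential equations -/
  ode : ∀ i, toQ T * PowerSeries.derivative ℚ (h i) = ∑ j, toQ (A i j) * h j
  /-- the coefficients have geometric growth -/
  size : ∃ C : ℝ, ∀ i m, |((coeff m (h i) : ℚ) : ℝ)| ≤ C ^ (m + 1)
  /-- the common denominators of the coefficients have geometric growth -/
  den : ∃ C : ℝ, ∀ m : ℕ, ∃ d : ℕ, 0 < d ∧ (d : ℝ) ≤ C ^ (m + 1) ∧
    ∀ i, ∀ j ≤ m, ∃ a : ℤ, (d : ℚ) * coeff j (h i) = a
  /-- Galochkin's condition: the common denominators of the matrices `G_s / s!` have geometric growth -/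
  galochkin : ∃ C : ℝ, ∀ m : ℕ, ∃ d : ℕ, 0 < d ∧ (d : ℝ) ≤ C ^ (m + 1) ∧ ∀ s ≤ m, ∀ i j,
    ∃ H : Polynomial ℤ, (d : Polynomial ℤ) * iter T A s i j = (s.factorial : Polynomial ℤ) * H

/-- the entries of a matrix -/
def entries {n : ℕ} (H : Matrix (Fin n) (Fin n) (PowerSeries ℚ)) : Fin (n * n) → PowerSeries ℚ :=
  fun a => H (finProdFinEquiv.symm a).1 (finProdFinEquiv.symm a).2

/-- rational matrices as complex matrices -/
def toC {n : ℕ} (M : Matrix (Fin n) (Fin n) ℚ) : Matrix (Fin n) (Fin n) ℂ := M.map fun x : ℚ => (x : ℂ)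

/-- `S` is the matrix of a flat form, alternating for odd `k` and symmetric for even `k`, and `N` is
the logarithm of the local monodromy `exp (2 π i N)`, an infinitesimal isometry; the matrix of the form
with respect to the algebraic basis is `H S Hᵀ = B / p`, and `F^a` and `F^{k+1-a}` are orthogonal, where
`f a` is the dimension of `F^a`. -/
structure Polarised {n : ℕ} (k : ℕ) (f : ℕ → ℕ) (H : Matrix (Fin n) (Fin n) (PowerSeries ℚ))
    (S N : Matrix (Fin n) (Fin n) ℚ) (p : Polynomial ℚ) (B : Matrix (Fin n) (Fin n) (Polynomial ℚ)) :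
    Prop where
  S_symm : (toC S).transpose = ((-1 : ℂ) ^ k) • toC S
  S_det : S.det ≠ 0
  N_inf : toC N * toC S + toC S * (toC N).transpose = 0
  p_ne : p ≠ 0
  B_det : B.det ≠ 0
  form : (p : PowerSeries ℚ) • (H * S.map (PowerSeries.C (R := ℚ)) * H.transpose) =
    B.map fun f => (f : PowerSeries ℚ)
  isotropic : ∀ (a : ℕ) (i j : Fin n), a ≤ k + 1 → (i : ℕ) < f a → (j : ℕ) < f (k + 1 - a) → B i j = 0

/-- The point `x = 0` is a large complex structure limit: `N^{k+1} = 0`, `N^k ≠ 0`, and
`N^{k-1}` and `N^{k-2}` have the ranks `2` and `h + 2` (or more). -/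
structure LargeComplexStructure {n : ℕ} (k h : ℕ) (N : Matrix (Fin n) (Fin n) ℚ) : Prop where
  nil : toC N ^ (k + 1) = 0
  top : toC N ^ k ≠ 0
  rank_sec : (toC N ^ (k - 1)).rank ≤ 2
  rank_third : h + 2 ≤ (toC N ^ (k - 2)).rank

/-- the value of `H` at `z` -/
noncomputable def val {n : ℕ} (H : Matrix (Fin n) (Fin n) (PowerSeries ℚ)) (z : ℂ) :
    Matrix (Fin n) (Fin n) ℂ :=
  Matrix.of fun i j => ∑' k : ℕ, ((coeff k (H i j) : ℚ) : ℂ) * z ^ k

/-- The connected component of the Zariski closure of the monodromy group (equivalently, of the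
differential Galois group) is the symplectic or the special orthogonal group: for some `ρ > 0` all
polynomial relations `R(x, H(x)) = 0` over `ℚ[x]` between the entries of `H` hold at all points `z` of
the disc `|z| < ρ` with `p(z) ≠ 0`, `det B(z) ≠ 0` for all matrices `g` with `p(z) g S gᵀ = B(z)` and
`det g = det H(z)`. -/
def FullMonodromy {n : ℕ} (H : Matrix (Fin n) (Fin n) (PowerSeries ℚ)) (S : Matrix (Fin n) (Fin n) ℚ)
    (p : Polynomial ℚ) (B : Matrix (Fin n) (Fin n) (Polynomial ℚ)) : Prop :=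
  ∃ ρ : ℝ, 0 < ρ ∧ ∀ R : MvPolynomial (Fin n × Fin n) (Polynomial ℚ),
    MvPolynomial.aeval (fun a : Fin n × Fin n => H a.1 a.2) R = 0 → ∀ z : ℂ, ‖z‖ < ρ →
      Polynomial.aeval z p ≠ 0 → Polynomial.aeval z B.det ≠ 0 → ∀ g : Matrix (Fin n) (Fin n) ℂ,
      (Polynomial.aeval z p) • (g * toC S * g.transpose) = (B.map fun f => Polynomial.aeval z f) →
      g.det = (val H z).det →
      MvPolynomial.eval₂ (Polynomial.aeval z : Polynomial ℚ →ₐ[ℚ] ℂ).toRingHom (fun a => g a.1 a.2) R = 0

/-- The period matrix `H(x) x^N = H(x) exp (N log x)` at `x = 1 / ξ`, with the value `-l` of `log x`,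
where `exp l = ξ`. -/
noncomputable def per {n : ℕ} (H : Matrix (Fin n) (Fin n) (PowerSeries ℚ)) (N : Matrix (Fin n) (Fin n) ℚ)
    (ξ l : ℂ) : Matrix (Fin n) (Fin n) ℂ :=
  val H (1 / ξ) * ∑ a ∈ Finset.range n, ((-l) ^ a / (a.factorial : ℂ)) • toC N ^ a

/-- The base change `C` from the flat basis to a rational basis is a polarised rational structure: the
logarithm `2 π i C⁻¹ N C` of the local monodromy is rational and the flat form is proportional to a
rational form on rows, `(v C⁻¹) S (w C⁻¹)ᵀ = κ v P wᵀ`. -/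
structure RationalStructure {n : ℕ} (S N : Matrix (Fin n) (Fin n) ℚ) (C : Matrix (Fin n) (Fin n) ℂ) :
    Prop where
  det : C.det ≠ 0
  log : ∃ M : Matrix (Fin n) (Fin n) ℚ, C * toC M = (2 * (Real.pi : ℂ) * Complex.I) • (toC N * C)
  form : ∃ (P : Matrix (Fin n) (Fin n) ℚ) (κ : ℂ), C⁻¹ * toC S * (C⁻¹).transpose = κ • toC P

/-- The step `F^p` of the Hodge filtration at the point `x = 1 / ξ` in the rational coordinates: the
span of the first `f p` rows of the period matrix. -/
noncomputable def F {n : ℕ} (f : ℕ → ℕ) (H : Matrix (Fin n) (Fin n) (PowerSeries ℚ))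
    (N : Matrix (Fin n) (Fin n) ℚ) (ξ l : ℂ) (C : Matrix (Fin n) (Fin n) ℂ) (p : ℕ) :
    Submodule ℂ (Fin n → ℂ) :=
  Submodule.span ℂ {v | ∃ i : Fin n, (i : ℕ) < f p ∧ v = (per H N ξ l * C) i}

/-- a subspace spanned by vectors with coordinates in `K` -/
def DefinedOver {n : ℕ} (K : IntermediateField ℚ ℂ) (W : Submodule ℂ (Fin n → ℂ)) : Prop :=
  ∃ s : Set (Fin n → K), W = Submodule.span ℂ ((fun x i => ((x i : K) : ℂ)) '' s)

/-- Complex multiplication: there is a rational endomorphism with separable characteristic polynomial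
which preserves the filtration, that is, the algebra of endomorphisms of the Hodge structure contains a
commutative semisimple algebra of the maximal dimension. -/
def HasCM {n : ℕ} (F : ℕ → Submodule ℂ (Fin n → ℂ)) : Prop :=
  ∃ a : Matrix (Fin n) (Fin n) ℚ, a.charpoly.Separable ∧
    ∀ p, ∀ v ∈ F p, Matrix.vecMul v (toC a) ∈ F p

/-- `ξ` is a root of a nonzero integral polynomial of degree at most `g` with coefficients of size at
most `|ξ|^A` -/
def Height (g A : ℕ) (ξ : ℂ) : Prop :=
  ∃ p : Polynomial ℤ, p ≠ 0 ∧ p.natDegree ≤ g ∧ (∀ j, |(p.coeff j : ℝ)| ≤ ‖ξ‖ ^ A) ∧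
    Polynomial.aeval ξ p = 0

/-- The set of the roots of nonzero integral polynomials of degree `≤ D` with leading coefficient of
absolute value `≤ 2^D` all of whose roots `ξ'` with `|ξ'| > R` are in `Sp`. It contains the algebraic
integers of degree `≤ D` all of whose conjugates of absolute value greater than `R` are in `Sp`. -/
def Roots (Sp : Set ℂ) (R : ℝ) (D : ℕ) : Set ℂ :=
  {ξ : ℂ | ∃ p : Polynomial ℤ, p ≠ 0 ∧ p.natDegree ≤ D ∧ |p.leadingCoeff| ≤ 2 ^ D ∧
    Polynomial.aeval ξ p = 0 ∧ ∀ ξ' : ℂ, Polynomial.aeval ξ' p = 0 → R < ‖ξ'‖ → ξ' ∈ Sp}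

/-- Polynomial height bound for the sets `Sp D`: for every `R` there is a `c` such that for all `D`
(1) the elements `ξ` of `Sp D` of degree `≤ D` and height `≤ |ξ|^D` satisfy `|ξ| < 2^((D+2)^c)`, and there
are at most `2^((D+2)^c)` such elements;
(2) the set `Roots (Sp D) R D` has at most `2^((D+2)^c)` elements, of absolute value less than
`2^((D+2)^c)`; it contains all algebraic integers `ξ` of degree `≤ D` all of whose conjugates of absolute
value greater than `R` are in `Sp D`. -/
def HeightBound (Sp : ℕ → Set ℂ) : Prop := ∀ R : ℝ, ∃ c : ℕ, ∀ D : ℕ,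
  (∀ ξ ∈ Sp D, Height D D ξ → ‖ξ‖ < 2 ^ ((D + 2) ^ c)) ∧
  {ξ : ℂ | ξ ∈ Sp D ∧ Height D D ξ}.Finite ∧
  {ξ : ℂ | ξ ∈ Sp D ∧ Height D D ξ}.ncard ≤ 2 ^ ((D + 2) ^ c) ∧
  (∀ ξ ∈ Roots (Sp D) R D, ‖ξ‖ < 2 ^ ((D + 2) ^ c)) ∧ (Roots (Sp D) R D).Finite ∧
  (Roots (Sp D) R D).ncard ≤ 2 ^ ((D + 2) ^ c) ∧
  ∀ ξ : ℂ, IsIntegral ℤ ξ → (minpoly ℚ ξ).natDegree ≤ D →
    (∀ ξ' : ℂ, Polynomial.aeval ξ' (minpoly ℚ ξ) = 0 → R < ‖ξ'‖ → ξ' ∈ Sp D) → ξ ∈ Roots (Sp D) R D

/-- counting -/
theorem height_bound {Sp : ℕ → Set ℂ} (hmono : ∀ D D' : ℕ, D ≤ D' → Sp D ⊆ Sp D')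
    (h : ∃ t₀ : ℕ, ∀ (D : ℕ) (ξ : ℂ), (2 : ℝ) ^ ((D + 2) ^ t₀) ≤ ‖ξ‖ → Height D D ξ → ξ ∉ Sp D) :
    HeightBound Sp := fun R => Pool.Agent.T2h17.GH.cntf hmono h R

theorem iter_eq {r : ℕ} (T : Polynomial ℤ) (A : Fin r → Fin r → Polynomial ℤ) (s : ℕ) :
    iter T A s = Pool.Agent.Y120.GH.itm T A s := by
  induction s with
  | zero => rfl
  | succ s ih =>
    funext i j
    rw [iter, Pool.Agent.Y120.GH.itm, ih]

/-- the G-system -/
theorem gsys {r : ℕ} {T : Polynomial ℤ} {A : Fin r → Fin r → Polynomial ℤ}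
    {h : Fin r → PowerSeries ℚ} (hG : GFamily T A h) : ∃ (q : ℕ) (C : ℝ),
    Pool.Agent.Y113.GSys q C T (fun i : Option (Fin r) => i.elim (1 : PowerSeries ℚ) h) :=
  Pool.Agent.T2h17.GH.gsys_one hG.ode hG.size hG.den (by
    obtain ⟨C, hC⟩ := hG.galochkin
    refine ⟨C, fun m => ?_⟩
    obtain ⟨d, h1, h2, h3⟩ := hC m
    refine ⟨d, h1, h2, fun s hs i' j' => ?_⟩
    rw [← iter_eq]
    exact h3 s hs i' j')

theorem per_eq {n : ℕ} (H : Matrix (Fin n) (Fin n) (PowerSeries ℚ)) (N : Matrix (Fin n) (Fin n) ℚ)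
    (ξ l : ℂ) (C : Matrix (Fin n) (Fin n) ℂ) : per H N ξ l * C =
      Pool.Agent.T2h17.CM.Hz H (1 / ξ) *
        (Pool.Agent.Y119.HY.E (Pool.Agent.T2h17.CM.toC N) (-l) * C) := by
  unfold per
  rw [Matrix.mul_assoc]
  rfl

/-- the step `F^p` as the span of the first rows -/
theorem F_eq {n : ℕ} (f : ℕ → ℕ) (H : Matrix (Fin n) (Fin n) (PowerSeries ℚ))
    (N : Matrix (Fin n) (Fin n) ℚ) (ξ l : ℂ) (C : Matrix (Fin n) (Fin n) ℂ) {p m : ℕ} (hm : f p = m)
    (hmn : m ≤ n) : F f H N ξ l C p =
      Submodule.span ℂ (Set.range fun i : Fin m => (per H N ξ l * C) (Fin.castLE hmn i)) := by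
  unfold F
  congr 1
  ext v
  constructor
  · rintro ⟨i, hi, rfl⟩
    exact ⟨⟨i, hm ▸ hi⟩, rfl⟩
  · rintro ⟨i, rfl⟩
    exact ⟨Fin.castLE hmn i, by rw [hm]; exact i.2, rfl⟩

/-- The set of the `ξ` such that for some logarithm of `ξ` and some polarised rational structure the fibre at
`x = 1 / ξ` has complex multiplication or `F^k` and `F^{k-1}` are both defined over a number field of
degree at most `m`. -/
def Algebraic {n : ℕ} (k : ℕ) (f : ℕ → ℕ) (H : Matrix (Fin n) (Fin n) (PowerSeries ℚ))
    (S N : Matrix (Fin n) (Fin n) ℚ) (m : ℕ) : Set ℂ :=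
  {ξ : ℂ | ∃ (l : ℂ) (C : Matrix (Fin n) (Fin n) ℂ), Complex.exp l = ξ ∧ RationalStructure S N C ∧
    (HasCM (F f H N ξ l C) ∨ ∃ K : IntermediateField ℚ ℂ, FiniteDimensional ℚ K ∧
      Module.finrank ℚ K ≤ m ∧ DefinedOver K (F f H N ξ l C k) ∧
      DefinedOver K (F f H N ξ l C (k - 1)))}

/-- Let `k ≥ 3`, let `H` be an `n × n` matrix of G-functions with rational coefficients, polarised of
weight `k` by `S`, `N`, `p`, `B`, with `dim F^a = f a`, `h^{k,0} = f k = 1` and
`h^{k-1,1} = f (k - 1) - 1 = h ≥ 1`, with a large complex structure limit at `x = 0` and full monodromy.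
Then for every `c₀` the sets of the `ξ` such that, for some logarithm and some polarised rational structure,
the fibre at `1 / ξ` has complex multiplication or the steps `F^k` and `F^{k-1}` are both defined over a
number field of degree at most `(D + 2)^c₀`, satisfy a polynomial height bound. -/
theorem result {n k h : ℕ} (hk : 3 ≤ k) (hh : 1 ≤ h) (hn : k + 1 ≤ n) (f : ℕ → ℕ) (hf : Antitone f)
    (hf1 : f k = 1) (hf2 : f (k - 1) = h + 1) (T : Polynomial ℤ)
    (A : Fin (n * n) → Fin (n * n) → Polynomial ℤ)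
    (H : Matrix (Fin n) (Fin n) (PowerSeries ℚ)) (hG : GFamily T A (entries H))
    (S N : Matrix (Fin n) (Fin n) ℚ) (p : Polynomial ℚ) (B : Matrix (Fin n) (Fin n) (Polynomial ℚ))
    (hP : Polarised k f H S N p B) (hL : LargeComplexStructure k h N) (hM : FullMonodromy H S p B) :
    ∀ c₀ : ℕ, HeightBound fun D => Algebraic k f H S N ((D + 2) ^ c₀) := by
  obtain ⟨q, rfl⟩ : ∃ q, k = q + 3 := ⟨k - 3, by omega⟩
  obtain ⟨t, rfl⟩ : ∃ t, h = t + 1 := ⟨h - 1, by omega⟩
  have hpi : (2 * (Real.pi : ℂ) * Complex.I) ≠ 0 := Complex.two_pi_I_ne_zero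
  have hSd : (Pool.Agent.T2h17.CM.toC S).det ≠ 0 := by
    have h1 : (Pool.Agent.T2h17.CM.toC S).det = ((S.det : ℚ) : ℂ) :=
      ((Rat.castHom ℂ).map_det S).symm
    rw [h1]
    exact_mod_cast hP.S_det
  have htn : t + 2 ≤ n := by
    have h1 := hL.rank_third
    have h2 := Matrix.rank_le_width (toC N ^ (q + 3 - 2))
    omega
  have h1n : 1 ≤ n := by omega
  set ι : Fin (t + 2) → Fin n := Fin.castLE htn with hι
  have hιi : Function.Injective ι := Fin.castLE_injective htn
  have hiso : ∀ i j, B (ι i) (ι j) = 0 := by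
    intro i j
    have hi := i.2
    have hj := j.2
    have hf2' : f (q + 2) = t + 2 := hf2
    refine hP.isotropic (q + 2) (ι i) (ι j) (by omega) ?_ ?_
    · show (i : ℕ) < f (q + 2)
      omega
    · show (j : ℕ) < f (q + 3 + 1 - (q + 2))
      have h1 : q + 3 + 1 - (q + 2) = 2 := by omega
      rw [h1]
      have h2 : f (q + 2) ≤ f 2 := hf (by omega)
      omega
  obtain ⟨qs, Cs, hgs⟩ := gsys hG
  -- vectors
  have key : ∀ c : ℕ, ∃ t0 : ℕ, ∀ (D : ℕ) (ξ l : ℂ), (2 : ℝ) ^ ((D + 2) ^ t0) ≤ ‖ξ‖ → Height D D ξ →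
      ∀ C : Matrix (Fin n) (Fin n) ℂ, RationalStructure S N C →
      ∀ K : IntermediateField ℚ ℂ, FiniteDimensional ℚ K → Module.finrank ℚ K ≤ (D + 2) ^ c →
      ¬ (DefinedOver K (F f H N ξ l C (q + 3)) ∧ DefinedOver K (F f H N ξ l C (q + 2))) := by
    intro c
    obtain ⟨t0, ht0⟩ := Pool.Agent.T2h17.GH.no_flag_g Pool.Agent.T2h17.GH.t_low
      Pool.Agent.T2h17.GH.t_grow Pool.Agent.T2h17.GH.t_depf (H := H) (p := p) (S := S) (NQ := N) (B := B)
      (q := q) (t := t) hn (ι 0) ι hιi rfl hG.T_ne hgs hG.size hP.S_symm hSd hP.N_inf hL.nil hL.top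
      hL.rank_sec hL.rank_third hP.p_ne hP.B_det hP.form hM hiso c
    refine ⟨t0, fun D ξ l hξ hht C hC K hK hKD hF => ?_⟩
    obtain ⟨hdet, ⟨M, hM⟩, P, κ, hQ⟩ := hC
    have hu : IsUnit C.det := isUnit_iff_ne_zero.2 hdet
    have hPP : toC S = κ • (C * toC P * C.transpose) := by
      have h1 : C * C⁻¹ = 1 := Matrix.mul_nonsing_inv _ hu
      have h2 : (C⁻¹).transpose * C.transpose = 1 := by
        rw [← Matrix.transpose_mul, h1, Matrix.transpose_one]
      calc toC S = (C * C⁻¹) * toC S * ((C⁻¹).transpose * C.transpose) := by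
            rw [h1, h2, Matrix.one_mul, Matrix.mul_one]
        _ = C * (C⁻¹ * toC S * (C⁻¹).transpose) * C.transpose := by simp only [Matrix.mul_assoc]
        _ = κ • (C * toC P * C.transpose) := by rw [hQ, Matrix.mul_smul, Matrix.smul_mul]
    obtain ⟨⟨s1, hs1⟩, ⟨s2, hs2⟩⟩ := hF
    rw [F_eq f H N ξ l C hf1 h1n] at hs1
    rw [F_eq f H N ξ l C (show f (q + 2) = t + 2 from hf2) htn] at hs2
    obtain ⟨y, e1, he1⟩ := Pool.Agent.T2h17.CM.span_vectors K hs1
    obtain ⟨x, e, he⟩ := Pool.Agent.T2h17.CM.span_vectors K hs2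
    refine ht0 D ξ (-l) hξ hht K hK hKD C M P _ κ hpi hM hPP (y 0) (e1 0 0) x e ?_ ?_
    · have h3 := he1 0
      rw [per_eq] at h3
      have h4 : Fin.castLE h1n 0 = ι 0 := Fin.ext rfl
      rw [h4] at h3
      rw [h3]
      funext j
      rw [Fin.sum_univ_one]
    · intro i
      have h3 := he i
      rw [per_eq] at h3
      exact h3
  -- the sets
  intro c₀
  obtain ⟨t0, ht0⟩ := key (c₀ + n ^ n)
  refine height_bound ?_ ⟨t0, ?_⟩
  · rintro D D' hD ξ ⟨l, C, h1, h2, h3⟩
    refine ⟨l, C, h1, h2, h3.imp id ?_⟩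
    rintro ⟨K, hK, hKD, hF⟩
    exact ⟨K, hK, hKD.trans (Nat.pow_le_pow_left (by omega) _), hF⟩
  · rintro D ξ hξ hht ⟨l, C, -, hC, hcm | ⟨K, hK, hKD, hF⟩⟩
    · obtain ⟨a, ha, hF⟩ := hcm
      obtain ⟨K, hK, hKD, hst⟩ := Pool.Agent.T2h17.CM.stable_defined a ha
      have hmap : toC a = Pool.Agent.Y119.HY.cm a := by
        ext i j
        rw [Pool.Agent.Y119.HY.cm_apply]
        rfl
      rw [hmap] at hF
      have h4 : Module.finrank ℚ K ≤ (D + 2) ^ (c₀ + n ^ n) := by
        refine hKD.trans (Nat.lt_two_pow_self.le.trans ?_)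
        exact (Nat.pow_le_pow_left (by omega) _).trans (Nat.pow_le_pow_right (by omega) (by omega))
      exact ht0 D ξ l hξ hht C hC K hK h4 ⟨hst _ (hF (q + 3)), hst _ (hF (q + 2))⟩
    · exact ht0 D ξ l hξ hht C hC K hK (hKD.trans (Nat.pow_le_pow_right (by omega) (by omega))) hF

end Pool.Agent.Results.MP_2794d1_ag.GrowingDegreeCM
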