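import Mathlib
import Pool.Agent.T2h17.GH.All
import Pool.Agent.T2h17.GH.SubG
import Pool.Agent.T2h17.GH.Cnt
import Pool.Agent.T2h17.SC.Cmc
import Pool.Agent.T2h17.SC.Lcs

/-!
# CM points near a point with a special limiting mixed Hodge structure: a polynomial height bound

Let `𝒱` be a polarised variation of Hodge structure of rank `n`, weight `k` and arbitrary Hodge numbers
over an open part of the projective line, which comes from a family of varieties over `ℚ(x)`, such
that the monodromy group is as large as possible: the connected component of its Zariski closure is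
the symplectic group for odd `k` and the special orthogonal group for even `k`. (For `k ≥ 3` and at least
three nonzero Hodge numbers it is not of Shimura type, so by the André–Oort conjecture for variations of
Hodge structure it should have only finitely many CM points.) The point `x = 0` can be any point of the
projective line: a point with a smooth fibre, or with finite or infinite local monodromy. With respect
to a basis of sections over `ℚ(x)` adapted to the Hodge filtration, the period matrix is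
`H(x) exp(N log x) C`, where `H` is a matrix of G-functions with rational coefficients, `N` is a rational
matrix (the residue of the connection; `N = 0` for a smooth fibre) and `C` is the period matrix of the
limiting mixed Hodge structure (of the fibre at `0`, if it is smooth).

We show: if the limiting mixed Hodge structure at `x = 0` is special, then the CM points have large Galois
orbits: there is a constant `c` such that for all `D` and all algebraic numbers `ξ` of degree `≤ D` and of
height `≤ |ξ|^D` such that the fibre at `x = 1 / ξ` has complex multiplication we have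
`log |ξ| ≤ (D + 2)^c`, and at most `2^((D+2)^c)` algebraic integers `ξ` of degree `≤ D` have the property
that all fibres at the points `1 / ξ'` of a given disc `|x| < 1 / R`, `ξ'` conjugate to `ξ`, have complex
multiplication. The same is true for the points where the isotropic step `F^a`, `k < 2 a`, of the Hodge
filtration is defined over a number field of degree at most `(D + 2)^c₀`, for any exponent `c₀`. Special
means one of the following (`r = dim F^a`):

* there is an invariant (`Invariant`): a rational function `f₀ / f₁` on the Grassmannian of `r`-dimensional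
  subspaces, not constant on the isotropic ones, which is invariant under the local monodromy, and which
  is defined over a number field both with respect to the algebraic (de Rham) structure at `x = 0` and
  with respect to the rational structure. In other words the orbits of the Mumford–Tate group of the
  limit are not dense in the isotropic Grassmannian (if its invariants are algebraic);
* the limiting mixed Hodge structure has complex multiplication by algebraic classes (`CMLimit`): some
  rational endomorphism `M` with separable characteristic polynomial, commuting with its adjoint, is given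
  by a matrix over a number field in the de Rham realisation; for example the fibre at `0` is smooth and
  has complex multiplication of this kind, like the Fermat hypersurface in a pencil of hypersurfaces;
  here `2 r < n` if `k` is odd, and `r = 1`, `n ≥ 5` if `k` is even;
* `r = 1`, for instance `h^{k,0} = 1`, and the logarithm `2 π i ν` of the unipotent part of the local
  monodromy satisfies `ν^5 ≠ 0` if `k` is odd, `ν^6 ≠ 0` if `k` is even (`DegenerateLimit`); for example a
  large complex structure limit of a family of Calabi–Yau varieties of dimension at least five. Nothing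
  more is assumed on the limit.

Proof. If `F^a` is defined over the number field `K`, the value of `f₀ / f₁` at the first `r` rows of
`H(1 / ξ)` is in `K`. All polynomial relations of bounded degree over number fields of degree `≤ (D + 2)^c`
between the entries of `H(1 / ξ)`, `ξ` of degree `≤ D`, `log |ξ| ≥ (D + 2)^t`, hold on the orbit of the
group, and by Witt's theorem the group acts transitively on the isotropic subspaces, so `f₀ / f₁` would be
constant. In the case of complex multiplication the `f_i` are the products of the opposite Plücker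
coordinates `p_I p_{τ I}` in a basis of eigenvectors, in the last case `f₀ = q_j q_{j+4}`, `f₁ = q_{j+2}²`,
`q_j(v) = S(ν^j v, v)`, where `j = 1` or `j = 2`.
-/

set_option autoImplicit false

open PowerSeries

namespace Pool.Agent.Results.MP_2794d1_ag.GrowingDegreeSpecialLimits

/-- an integer polynomial as a power series with rational coefficients -/
noncomputable def toQ (P : Polynomial ℤ) : PowerSeries ℚ :=
  ((P.map (Int.castRingHom ℚ) : Polynomial ℚ) : PowerSeries ℚ)

/-- the matrices `G_s` over `ℤ[x]` with `T^s y^(s) = G_s y` for all solutions `y` of `T y' = A y` -/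
noncomputable def iter {r : ℕ} (T : Polynomial ℤ) (A : Fin r → Fin r → Polynomial ℤ) :
    ℕ → Fin r → Fin r → Polynomial ℤ
  | 0 => fun i j => if i = j then 1 else 0
  | s + 1 => fun i j => T * Polynomial.derivative (iter T A s i j) + ∑ l, iter T A s i l * A l j -
      (s : Polynomial ℤ) * (Polynomial.derivative T * iter T A s i j)

/-- `h_1, ..., h_r` are G-functions with rational coefficients which solve the differential system
`T y' = A y`, with the conditions of Siegel and Galochkin. -/
structure GFamily {r : ℕ} (T : Polynomial ℤ) (A : Fin r → Fin r → Polynomial ℤ)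
    (h : Fin r → PowerSeries ℚ) : Prop where
  /-- the denominator is not zero -/
  T_ne : T ≠ 0
  /-- the differential equations -/
  ode : ∀ i, toQ T * PowerSeries.derivative ℚ (h i) = ∑ j, toQ (A i j) * h j
  /-- the coefficients have geometric growth -/
  size : ∃ C : ℝ, ∀ i m, |((coeff m (h i) : ℚ) : ℝ)| ≤ C ^ (m + 1)
  /-- the common denominators of the coefficients have geometric growth -/
  den : ∃ C : ℝ, ∀ m : ℕ, ∃ d : ℕ, 0 < d ∧ (d : ℝ) ≤ C ^ (m + 1) ∧
    ∀ i, ∀ j ≤ m, ∃ a : ℤ, (d : ℚ) * coeff j (h i) = a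
  /-- Galochkin's condition: the common denominators of the matrices `G_s / s!` have geometric growth -/
  galochkin : ∃ C : ℝ, ∀ m : ℕ, ∃ d : ℕ, 0 < d ∧ (d : ℝ) ≤ C ^ (m + 1) ∧ ∀ s ≤ m, ∀ i j,
    ∃ H : Polynomial ℤ, (d : Polynomial ℤ) * iter T A s i j = (s.factorial : Polynomial ℤ) * H

/-- the entries of a matrix -/
def entries {n : ℕ} (H : Matrix (Fin n) (Fin n) (PowerSeries ℚ)) : Fin (n * n) → PowerSeries ℚ :=
  fun a => H (finProdFinEquiv.symm a).1 (finProdFinEquiv.symm a).2

/-- rational matrices as complex matrices -/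
def toC {n : ℕ} (M : Matrix (Fin n) (Fin n) ℚ) : Matrix (Fin n) (Fin n) ℂ := M.map fun x : ℚ => (x : ℂ)

/-- `S` is the matrix of a flat form, alternating for odd `k` and symmetric for even `k`, and `N` is
the residue of the connection at `0`, an infinitesimal isometry; the matrix of the form with respect to
the algebraic basis is `H S Hᵀ = B / p`, and `F^a` and `F^{k+1-a}` are orthogonal, where `f a` is the
dimension of `F^a`. -/
structure Polarised {n : ℕ} (k : ℕ) (f : ℕ → ℕ) (H : Matrix (Fin n) (Fin n) (PowerSeries ℚ))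
    (S N : Matrix (Fin n) (Fin n) ℚ) (p : Polynomial ℚ) (B : Matrix (Fin n) (Fin n) (Polynomial ℚ)) :
    Prop where
  S_symm : (toC S).transpose = ((-1 : ℂ) ^ k) • toC S
  S_det : S.det ≠ 0
  N_inf : toC N * toC S + toC S * (toC N).transpose = 0
  p_ne : p ≠ 0
  B_det : B.det ≠ 0
  form : (p : PowerSeries ℚ) • (H * S.map (PowerSeries.C (R := ℚ)) * H.transpose) =
    B.map fun f => (f : PowerSeries ℚ)
  isotropic : ∀ (a : ℕ) (i j : Fin n), a ≤ k + 1 → (i : ℕ) < f a → (j : ℕ) < f (k + 1 - a) → B i j = 0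

/-- the value of `H` at `z` -/
noncomputable def val {n : ℕ} (H : Matrix (Fin n) (Fin n) (PowerSeries ℚ)) (z : ℂ) :
    Matrix (Fin n) (Fin n) ℂ :=
  Matrix.of fun i j => ∑' k : ℕ, ((coeff k (H i j) : ℚ) : ℂ) * z ^ k

/-- The connected component of the Zariski closure of the monodromy group (equivalently, of the
differential Galois group) is the symplectic or the special orthogonal group: for some `ρ > 0` all
polynomial relations `R(x, H(x)) = 0` over `ℚ[x]` between the entries of `H` hold at all points `z` of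
the disc `|z| < ρ` with `p(z) ≠ 0`, `det B(z) ≠ 0` for all matrices `g` with `p(z) g S gᵀ = B(z)` and
`det g = det H(z)`. -/
def FullMonodromy {n : ℕ} (H : Matrix (Fin n) (Fin n) (PowerSeries ℚ)) (S : Matrix (Fin n) (Fin n) ℚ)
    (p : Polynomial ℚ) (B : Matrix (Fin n) (Fin n) (Polynomial ℚ)) : Prop :=
  ∃ ρ : ℝ, 0 < ρ ∧ ∀ R : MvPolynomial (Fin n × Fin n) (Polynomial ℚ),
    MvPolynomial.aeval (fun a : Fin n × Fin n => H a.1 a.2) R = 0 → ∀ z : ℂ, ‖z‖ < ρ →
      Polynomial.aeval z p ≠ 0 → Polynomial.aeval z B.det ≠ 0 → ∀ g : Matrix (Fin n) (Fin n) ℂ,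
      (Polynomial.aeval z p) • (g * toC S * g.transpose) = (B.map fun f => Polynomial.aeval z f) →
      g.det = (val H z).det →
      MvPolynomial.eval₂ (Polynomial.aeval z : Polynomial ℚ →ₐ[ℚ] ℂ).toRingHom (fun a => g a.1 a.2) R = 0

/-- The period matrix `H(x) exp(N log x) C` at `x = 1 / ξ`, with the value `-l` of `log x`, where
`exp l = ξ`. -/
noncomputable def per {n : ℕ} (H : Matrix (Fin n) (Fin n) (PowerSeries ℚ)) (N : Matrix (Fin n) (Fin n) ℚ)
    (ξ l : ℂ) (C : Matrix (Fin n) (Fin n) ℂ) : Matrix (Fin n) (Fin n) ℂ :=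
  val H (1 / ξ) * NormedSpace.exp ((-l) • toC N) * C

/-- The base change `C` from the flat basis to a rational basis is a polarised rational structure: the
flat form is proportional to a rational form on rows, `(v C⁻¹) S (w C⁻¹)ᵀ = κ v P wᵀ`. -/
structure RationalStructure {n : ℕ} (S : Matrix (Fin n) (Fin n) ℚ) (C : Matrix (Fin n) (Fin n) ℂ) :
    Prop where
  det : C.det ≠ 0
  form : ∃ (P : Matrix (Fin n) (Fin n) ℚ) (κ : ℂ), C⁻¹ * toC S * (C⁻¹).transpose = κ • toC P

/-- the value of a polynomial at a matrix with `r` rows -/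
noncomputable def evl {n r : ℕ} {K : IntermediateField ℚ ℂ} (f : MvPolynomial (Fin r × Fin n) K)
    (X : Matrix (Fin r) (Fin n) ℂ) : ℂ :=
  MvPolynomial.aeval (fun a : Fin r × Fin n => X a.1 a.2) f

/-- `f 0 / f 1` is an invariant rational function on the Grassmannian of `r`-dimensional subspaces (the
spans of the rows of the `r × n` matrices `X`), which is defined over the number field `K` in the flat
coordinates (by the `f i`) and in the rational coordinates (by the `g i`), and which is not constant on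
the isotropic subspaces. -/
structure Invariant {n : ℕ} (r D : ℕ) (S N : Matrix (Fin n) (Fin n) ℚ) (C : Matrix (Fin n) (Fin n) ℂ)
    (K : IntermediateField ℚ ℂ) (f g : Fin 2 → MvPolynomial (Fin r × Fin n) K) : Prop where
  finite : FiniteDimensional ℚ K
  field : Module.finrank ℚ K ≤ D
  degree : ∀ i, (f i).totalDegree ≤ D
  weight : ∃ e : ℕ, ∀ i (b : Matrix (Fin r) (Fin r) ℂ) X, evl (f i) (b * X) = b.det ^ e * evl (f i) X
  monodromy : ∀ s : ℂ, ∃ c : ℂ, c ≠ 0 ∧
    ∀ i X, evl (f i) (X * NormedSpace.exp (s • toC N)) = c * evl (f i) X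
  betti : ∃ μ : ℂ, μ ≠ 0 ∧ ∀ i X, evl (f i) X = μ * evl (g i) (X * C)
  independent : ∀ α : Fin 2 → ℂ, α ≠ 0 → ∃ X : Matrix (Fin r) (Fin n) ℂ,
    LinearIndependent ℂ (fun i => X i) ∧ X * toC S * X.transpose = 0 ∧
      α 0 * evl (f 0) X + α 1 * evl (f 1) X ≠ 0

/-- a matrix over a subfield as a complex matrix -/
def toK {n : ℕ} {K : IntermediateField ℚ ℂ} (A : Matrix (Fin n) (Fin n) K) : Matrix (Fin n) (Fin n) ℂ :=
  A.map fun x : K => (x : ℂ)

/-- The limiting mixed Hodge structure has complex multiplication: the endomorphism with the rational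
matrix `M` and, in the flat coordinates, the matrix `A` over a number field of degree at most `D`, has a
separable characteristic polynomial, it commutes with its adjoint `S Aᵀ S⁻¹` and with the residue `N`. -/
def CMLimit {n : ℕ} (D : ℕ) (S N : Matrix (Fin n) (Fin n) ℚ) (C : Matrix (Fin n) (Fin n) ℂ) : Prop :=
  ∃ (K : IntermediateField ℚ ℂ) (A : Matrix (Fin n) (Fin n) K) (M : Matrix (Fin n) (Fin n) ℚ),
    FiniteDimensional ℚ K ∧ Module.finrank ℚ K ≤ D ∧ M.charpoly.Separable ∧
    C * toC M = toK A * C ∧ toK A * toC N = toC N * toK A ∧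
    toK A * (toC S * (toK A).transpose * (toC S)⁻¹) = toC S * (toK A).transpose * (toC S)⁻¹ * toK A

/-- The local monodromy is far from being finite: `2 π i C⁻¹ ν C` is rational, `ν` is nilpotent and
commutes with the residue, and `ν^5 ≠ 0` if `k` is odd, `ν^6 ≠ 0` if `k` is even. -/
def DegenerateLimit {n : ℕ} (k : ℕ) (S N : Matrix (Fin n) (Fin n) ℚ) (C : Matrix (Fin n) (Fin n) ℂ) :
    Prop :=
  ∃ ν M : Matrix (Fin n) (Fin n) ℚ, toC ν * toC S + toC S * (toC ν).transpose = 0 ∧
    toC ν * toC N = toC N * toC ν ∧ C * toC M = (2 * (Real.pi : ℂ) * Complex.I) • (toC ν * C) ∧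
    toC ν ^ n = 0 ∧ ((Odd k ∧ toC ν ^ 5 ≠ 0) ∨ (Even k ∧ toC ν ^ 6 ≠ 0))

/-- the limit at `x = 0` is special for the subspaces of dimension `r` -/
def Special {n : ℕ} (D k r : ℕ) (S N : Matrix (Fin n) (Fin n) ℚ) (C : Matrix (Fin n) (Fin n) ℂ) : Prop :=
  (∃ K f g, Invariant r D S N C K f g) ∨
  (CMLimit D S N C ∧ ((Odd k ∧ 2 * r < n) ∨ (Even k ∧ r = 1 ∧ 5 ≤ n))) ∨
  (DegenerateLimit k S N C ∧ r = 1)

/-- The step `F^p` of the Hodge filtration at the point `x = 1 / ξ` in the rational coordinates: the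
span of the first `f p` rows of the period matrix. -/
noncomputable def F {n : ℕ} (f : ℕ → ℕ) (H : Matrix (Fin n) (Fin n) (PowerSeries ℚ))
    (N : Matrix (Fin n) (Fin n) ℚ) (ξ l : ℂ) (C : Matrix (Fin n) (Fin n) ℂ) (p : ℕ) :
    Submodule ℂ (Fin n → ℂ) :=
  Submodule.span ℂ {v | ∃ i : Fin n, (i : ℕ) < f p ∧ v = per H N ξ l C i}

/-- a subspace spanned by vectors with coordinates in `K` -/
def DefinedOver {n : ℕ} (K : IntermediateField ℚ ℂ) (W : Submodule ℂ (Fin n → ℂ)) : Prop :=
  ∃ s : Set (Fin n → K), W = Submodule.span ℂ ((fun x i => ((x i : K) : ℂ)) '' s)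

/-- Complex multiplication: there is a rational endomorphism with separable characteristic polynomial
which preserves the filtration, that is, the algebra of endomorphisms of the Hodge structure contains a
commutative semisimple algebra of the maximal dimension. -/
def HasCM {n : ℕ} (F : ℕ → Submodule ℂ (Fin n → ℂ)) : Prop :=
  ∃ a : Matrix (Fin n) (Fin n) ℚ, a.charpoly.Separable ∧
    ∀ p, ∀ v ∈ F p, Matrix.vecMul v (toC a) ∈ F p

/-- `ξ` is a root of a nonzero integral polynomial of degree at most `g` with coefficients of size at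
most `|ξ|^A` -/
def Height (g A : ℕ) (ξ : ℂ) : Prop :=
  ∃ p : Polynomial ℤ, p ≠ 0 ∧ p.natDegree ≤ g ∧ (∀ j, |(p.coeff j : ℝ)| ≤ ‖ξ‖ ^ A) ∧
    Polynomial.aeval ξ p = 0

/-- The set of the roots of nonzero integral polynomials of degree `≤ D` with leading coefficient of
absolute value `≤ 2^D` all of whose roots `ξ'` with `|ξ'| > R` are in `Sp`. It contains the algebraic
integers of degree `≤ D` all of whose conjugates of absolute value greater than `R` are in `Sp`. -/
def Roots (Sp : Set ℂ) (R : ℝ) (D : ℕ) : Set ℂ :=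
  {ξ : ℂ | ∃ p : Polynomial ℤ, p ≠ 0 ∧ p.natDegree ≤ D ∧ |p.leadingCoeff| ≤ 2 ^ D ∧
    Polynomial.aeval ξ p = 0 ∧ ∀ ξ' : ℂ, Polynomial.aeval ξ' p = 0 → R < ‖ξ'‖ → ξ' ∈ Sp}

/-- Polynomial height bound for the sets `Sp D`: for every `R` there is a `c` such that for all `D`
(1) the elements `ξ` of `Sp D` of degree `≤ D` and height `≤ |ξ|^D` satisfy `|ξ| < 2^((D+2)^c)`, and there
are at most `2^((D+2)^c)` such elements;
(2) the set `Roots (Sp D) R D` has at most `2^((D+2)^c)` elements, of absolute value less than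
`2^((D+2)^c)`; it contains all algebraic integers `ξ` of degree `≤ D` all of whose conjugates of absolute
value greater than `R` are in `Sp D`. -/
def HeightBound (Sp : ℕ → Set ℂ) : Prop := ∀ R : ℝ, ∃ c : ℕ, ∀ D : ℕ,
  (∀ ξ ∈ Sp D, Height D D ξ → ‖ξ‖ < 2 ^ ((D + 2) ^ c)) ∧
  {ξ : ℂ | ξ ∈ Sp D ∧ Height D D ξ}.Finite ∧
  {ξ : ℂ | ξ ∈ Sp D ∧ Height D D ξ}.ncard ≤ 2 ^ ((D + 2) ^ c) ∧
  (∀ ξ ∈ Roots (Sp D) R D, ‖ξ‖ < 2 ^ ((D + 2) ^ c)) ∧ (Roots (Sp D) R D).Finite ∧
  (Roots (Sp D) R D).ncard ≤ 2 ^ ((D + 2) ^ c) ∧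
  ∀ ξ : ℂ, IsIntegral ℤ ξ → (minpoly ℚ ξ).natDegree ≤ D →
    (∀ ξ' : ℂ, Polynomial.aeval ξ' (minpoly ℚ ξ) = 0 → R < ‖ξ'‖ → ξ' ∈ Sp D) → ξ ∈ Roots (Sp D) R D

/-- counting -/
theorem height_bound {Sp : ℕ → Set ℂ} (hmono : ∀ D D' : ℕ, D ≤ D' → Sp D ⊆ Sp D')
    (h : ∃ t₀ : ℕ, ∀ (D : ℕ) (ξ : ℂ), (2 : ℝ) ^ ((D + 2) ^ t₀) ≤ ‖ξ‖ → Height D D ξ → ξ ∉ Sp D) :
    HeightBound Sp := fun R => Pool.Agent.T2h17.GH.cntf hmono h R

theorem iter_eq {r : ℕ} (T : Polynomial ℤ) (A : Fin r → Fin r → Polynomial ℤ) (s : ℕ) :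
    iter T A s = Pool.Agent.Y120.GH.itm T A s := by
  induction s with
  | zero => rfl
  | succ s ih =>
    funext i j
    rw [iter, Pool.Agent.Y120.GH.itm, ih]

/-- the G-system -/
theorem gsys {r : ℕ} {T : Polynomial ℤ} {A : Fin r → Fin r → Polynomial ℤ}
    {h : Fin r → PowerSeries ℚ} (hG : GFamily T A h) : ∃ (q : ℕ) (C : ℝ),
    Pool.Agent.Y113.GSys q C T (fun i : Option (Fin r) => i.elim (1 : PowerSeries ℚ) h) :=
  Pool.Agent.T2h17.GH.gsys_one hG.ode hG.size hG.den (by
    obtain ⟨C, hC⟩ := hG.galochkin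
    refine ⟨C, fun m => ?_⟩
    obtain ⟨d, h1, h2, h3⟩ := hC m
    refine ⟨d, h1, h2, fun s hs i' j' => ?_⟩
    rw [← iter_eq]
    exact h3 s hs i' j')

theorem per_eq {n : ℕ} (H : Matrix (Fin n) (Fin n) (PowerSeries ℚ)) (N : Matrix (Fin n) (Fin n) ℚ)
    (ξ l : ℂ) (C : Matrix (Fin n) (Fin n) ℂ) : per H N ξ l C =
      Pool.Agent.T2h17.CM.Hz H (1 / ξ) *
        (NormedSpace.exp ((-l) • Pool.Agent.T2h17.CM.toC N) * C) := by
  unfold per
  rw [Matrix.mul_assoc]
  rfl

/-- the step `F^p` as the span of the first rows -/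
theorem F_eq {n : ℕ} (f : ℕ → ℕ) (H : Matrix (Fin n) (Fin n) (PowerSeries ℚ))
    (N : Matrix (Fin n) (Fin n) ℚ) (ξ l : ℂ) (C : Matrix (Fin n) (Fin n) ℂ) {p : ℕ}
    (hmn : f p ≤ n) : F f H N ξ l C p =
      Submodule.span ℂ (Set.range fun i : Fin (f p) => per H N ξ l C (Fin.castLE hmn i)) := by
  unfold F
  congr 1
  ext v
  constructor
  · rintro ⟨i, hi, rfl⟩
    exact ⟨⟨i, hi⟩, rfl⟩
  · rintro ⟨i, rfl⟩
    exact ⟨Fin.castLE hmn i, i.2, rfl⟩

/-- special limits have invariants -/
theorem special_invt {n D k r : ℕ} {S N : Matrix (Fin n) (Fin n) ℚ} {C : Matrix (Fin n) (Fin n) ℂ}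
    (hr : 1 ≤ r) (hS : (toC S).transpose = ((-1 : ℂ) ^ k) • toC S) (hSd : (toC S).det ≠ 0)
    (hN : toC N * toC S + toC S * (toC N).transpose = 0) (hC : RationalStructure S C)
    (h : Special D k r S N C) :
    ∃ (L : IntermediateField ℚ ℂ) (f g : Fin 2 → MvPolynomial (Fin r × Fin n) L),
      Pool.Agent.T2h17.SC.Invt r (D + n ^ n + D * n ^ n + 2 * r + 4) (Pool.Agent.T2h17.CM.toC S)
        (Pool.Agent.T2h17.CM.toC N) C L f g := by
  obtain ⟨hdet, P, κ, hP⟩ := hC
  have mono : ∀ {D' : ℕ} {L : IntermediateField ℚ ℂ} {f g : Fin 2 → MvPolynomial (Fin r × Fin n) L},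
      D' ≤ D + n ^ n + D * n ^ n + 2 * r + 4 →
      Pool.Agent.T2h17.SC.Invt r D' (Pool.Agent.T2h17.CM.toC S) (Pool.Agent.T2h17.CM.toC N) C L f g →
      Pool.Agent.T2h17.SC.Invt r (D + n ^ n + D * n ^ n + 2 * r + 4) (Pool.Agent.T2h17.CM.toC S)
        (Pool.Agent.T2h17.CM.toC N) C L f g := by
    intro D' L f g hD hI
    exact ⟨hI.finite, hI.field.trans hD, fun i => (hI.degree i).trans hD, hI.weight, hI.monodromy,
      hI.betti, hI.independent⟩
  rcases h with ⟨K, f, g, hI⟩ | ⟨⟨K, A, M, h1, h2, h3, h4, h5, h6⟩, hcase⟩ |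
    ⟨⟨ν, M, h1, h2, h3, h4, h5⟩, rfl⟩
  · refine ⟨K, f, g, mono (D' := D) (by omega) ⟨hI.finite, hI.field, hI.degree, hI.weight,
      hI.monodromy, hI.betti, hI.independent⟩⟩
  · obtain ⟨L, f, g, hI⟩ := Pool.Agent.T2h17.SC.cm_invt (r := r) (D := D) (k := k) (S := S) (P := P)
      (N := toC N) hS hSd hN hdet hP h1 h2 h3 h4 h5 h6 (by
        rcases hcase with ⟨a, b⟩ | h
        · exact Or.inl ⟨a, hr, b⟩
        · exact Or.inr h)
    exact ⟨L, f, g, mono (by omega) hI⟩
  · obtain ⟨j, hj, htop⟩ : ∃ j, ((Odd k ∧ j = 1) ∨ (Even k ∧ j = 2)) ∧ toC ν ^ (j + 4) ≠ 0 := by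
      rcases h5 with ⟨a, b⟩ | ⟨a, b⟩
      · exact ⟨1, Or.inl ⟨a, rfl⟩, b⟩
      · exact ⟨2, Or.inr ⟨a, rfl⟩, b⟩
    obtain ⟨L, f, g, hI⟩ := Pool.Agent.T2h17.SC.lcs_invt (k := k) (j := j) (S := S) (P := P) (NQ := ν)
      (M := M) (N := toC N) hS hSd hN hdet Complex.two_pi_I_ne_zero hP h1 h2 h3 hj h4 htop
    exact ⟨L, f, g, mono (by omega) hI⟩

/-- The set of the `ξ` such that for some logarithm of `ξ` and some polarised rational structure for which
the limit at `x = 0` is special (with number fields and degrees at most `D₀`) the fibre at `x = 1 / ξ` has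
complex multiplication or `F^a` is defined over a number field of degree at most `m`. -/
def Algebraic {n : ℕ} (k : ℕ) (f : ℕ → ℕ) (H : Matrix (Fin n) (Fin n) (PowerSeries ℚ))
    (S N : Matrix (Fin n) (Fin n) ℚ) (a D₀ m : ℕ) : Set ℂ :=
  {ξ : ℂ | ∃ (l : ℂ) (C : Matrix (Fin n) (Fin n) ℂ), Complex.exp l = ξ ∧ RationalStructure S C ∧
    Special D₀ k (f a) S N C ∧ (HasCM (F f H N ξ l C) ∨ ∃ K : IntermediateField ℚ ℂ,
      FiniteDimensional ℚ K ∧ Module.finrank ℚ K ≤ m ∧ DefinedOver K (F f H N ξ l C a))}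

/-- Let `H` be an `n × n` matrix of G-functions with rational coefficients, polarised of weight `k` by
`S`, `N`, `p`, `B`, with `dim F^c = f c`, and with full monodromy. Let `k < 2 a`, `1 ≤ f a`, and
`2 (f a) < n` if `k` is even. Then for all `c₀` and `D₀` the sets of the `ξ` such that, for some logarithm
and some polarised rational structure for which the limit at `x = 0` is special (with fields and degrees at
most `D₀`), the fibre at `1 / ξ` has complex multiplication or the step `F^a` is defined over a number field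
of degree at most `(D + 2)^c₀`, satisfy a polynomial height bound. -/
theorem result {n k : ℕ} (f : ℕ → ℕ) (hf : Antitone f) (T : Polynomial ℤ)
    (A : Fin (n * n) → Fin (n * n) → Polynomial ℤ)
    (H : Matrix (Fin n) (Fin n) (PowerSeries ℚ)) (hG : GFamily T A (entries H))
    (S N : Matrix (Fin n) (Fin n) ℚ) (p : Polynomial ℚ) (B : Matrix (Fin n) (Fin n) (Polynomial ℚ))
    (hP : Polarised k f H S N p B) (hM : FullMonodromy H S p B) (a : ℕ) (ha : k < 2 * a)
    (ha' : a ≤ k) (hfn : f a ≤ n) (hf1 : 1 ≤ f a) (hf2 : Even k → 2 * f a < n) :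
    ∀ c₀ D₀ : ℕ, HeightBound fun D => Algebraic k f H S N a D₀ ((D + 2) ^ c₀) := by
  have hSd : (Pool.Agent.T2h17.CM.toC S).det ≠ 0 := by
    have h1 : (Pool.Agent.T2h17.CM.toC S).det = ((S.det : ℚ) : ℂ) :=
      ((Rat.castHom ℂ).map_det S).symm
    rw [h1]
    exact_mod_cast hP.S_det
  set ι : Fin (f a) → Fin n := Fin.castLE hfn with hι
  have hιi : Function.Injective ι := Fin.castLE_injective hfn
  have hiso : ∀ i j, B (ι i) (ι j) = 0 := by
    intro i j
    refine hP.isotropic a (ι i) (ι j) (by omega) i.2 ?_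
    have h1 : f a ≤ f (k + 1 - a) := hf (by omega)
    exact lt_of_lt_of_le j.2 h1
  obtain ⟨qs, Cs, hgs⟩ := gsys hG
  intro c₀ D₀
  set D' := D₀ + n ^ n + D₀ * n ^ n + 2 * f a + 4 with hD'
  obtain ⟨t0, ht0⟩ := Pool.Agent.T2h17.GH.no_sub_g Pool.Agent.T2h17.GH.t_low
    Pool.Agent.T2h17.GH.t_grow Pool.Agent.T2h17.GH.t_depf (k := k) (r := f a) (H := H) (p := p) (S := S)
    (NQ := N) (B := B) hf2 ι hιi hG.T_ne hgs hG.size hP.S_symm hSd
    hP.p_ne hP.B_det hP.form hM hiso (c₀ + n ^ n) D'
  refine height_bound ?_ ⟨t0, ?_⟩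
  · rintro D D'' hD ξ ⟨l, C, h1, h2, h3, h4⟩
    refine ⟨l, C, h1, h2, h3, h4.imp id ?_⟩
    rintro ⟨K, hK, hKD, hF⟩
    exact ⟨K, hK, hKD.trans (Nat.pow_le_pow_left (by omega) _), hF⟩
  · rintro D ξ hξ hht ⟨l, C, -, hC, hsp, hbad⟩
    obtain ⟨L, f', g', hI⟩ := special_invt hf1 hP.S_symm hSd hP.N_inf hC hsp
    have base : ∀ K : IntermediateField ℚ ℂ, FiniteDimensional ℚ K →
        Module.finrank ℚ K ≤ (D + 2) ^ (c₀ + n ^ n) → ¬ DefinedOver K (F f H N ξ l C a) := by
      intro K hK hKD hF
      obtain ⟨s, hs⟩ := hF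
      rw [F_eq f H N ξ l C hfn] at hs
      obtain ⟨x, e, he⟩ := Pool.Agent.T2h17.CM.span_vectors K hs
      refine ht0 D ξ (-l) hξ hht C hC.det L f' g' hI K hK hKD x e (fun i => ?_)
      have h3 := he i
      rw [per_eq] at h3
      exact h3
    rcases hbad with hcm | ⟨K, hK, hKD, hF⟩
    · obtain ⟨c, hc, hF⟩ := hcm
      obtain ⟨K, hK, hKD, hst⟩ := Pool.Agent.T2h17.CM.stable_defined c hc
      have hmap : toC c = Pool.Agent.Y119.HY.cm c := by
        ext i j
        rw [Pool.Agent.Y119.HY.cm_apply]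
        rfl
      rw [hmap] at hF
      refine base K hK ?_ (hst _ (hF a))
      refine hKD.trans (Nat.lt_two_pow_self.le.trans ?_)
      exact (Nat.pow_le_pow_left (by omega) _).trans (Nat.pow_le_pow_right (by omega) (by omega))
    · exact base K hK (hKD.trans (Nat.pow_le_pow_right (by omega) (by omega))) hF

end Pool.Agent.Results.MP_2794d1_ag.GrowingDegreeSpecialLimits
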